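import Pool.Agent.LibSAD21.Sent
import Pool.Agent.LibTk83.V2
import Pool.Agent.LibTk83.V5
import Pool.Agent.LibTk83.V14

/-!
The interpretation of the sentence in the Boolean-valued universe, for a complete Boolean algebra
with suitable names.
-/

set_option autoImplicit false

namespace Pool.Agent.LibSAD21

open Pool.Agent.LibPlas90 Pool.Agent.LibPlas90.BSet Pool.Agent.LibTk83

variable {B : Type} [CompleteBooleanAlgebra B]

theorem sub_mem (x y t : BSet B) : sub x y ⊓ mem t x ≤ mem t y := by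
  rw [← le_himp_iff]
  unfold sub all
  exact iInf_le _ t

variable {J : Type} [LinearOrder J] [WellFoundedLT J]

theorem mem_mk_chk (x : J → B) (k : J) : mem (chk k) (mk J chk x) = x k := by
  rw [mem_mk]
  apply le_antisymm
  · refine iSup_le fun j => ?_
    by_cases h : k = j
    · subst h
      exact inf_le_left
    · rw [eq_chk h, inf_bot_eq]
      exact bot_le
  · refine le_iSup_of_le k ?_
    rw [BSet.eq_refl, inf_top_eq]

theorem sub_ck_le' (X : BSet B) : sub X (ck B J) ≤ eq X (mk J chk fun k => mem (chk k) X) := by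
  refine le_eq_of_forall _ _ _ (fun t => ?_) (fun t => ?_)
  · have h1 : sub X (ck B J) ⊓ mem t X ≤ (⨆ j : J, eq t (chk j)) ⊓ mem t X := by
      refine le_inf ?_ inf_le_right
      rw [← mem_ck]
      exact sub_mem _ _ _
    refine h1.trans ?_
    rw [iSup_inf_eq]
    refine iSup_le fun j => ?_
    have h2 : eq t (chk j) ⊓ mem t X ≤
        eq (chk j) t ⊓ mem (chk j) (mk J chk fun k => mem (chk k) X) := by
      refine le_inf ?_ ?_
      · rw [eq_symm]
        exact inf_le_left
      · rw [mem_mk_chk]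
        exact mem_congr_left _ _ _
    exact h2.trans (mem_congr_left _ _ _)
  · refine inf_le_right.trans ?_
    rw [mem_mk]
    refine iSup_le fun j => ?_
    rw [inf_comm, eq_symm]
    exact mem_congr_left _ _ _

omit [WellFoundedLT J] in
/-- A subset of `J` with almost no elements is finite. -/
theorem exists_split (F : Finset J) : ∀ (m : J → B) (x : B), (∀ γ, γ ∉ F → x ⊓ m γ = ⊥) →
    x ≤ ⨆ G : Finset J, (⨅ γ, ⨅ _ : γ ∈ G, m γ) ⊓ (⨅ γ, ⨅ _ : γ ∉ G, (m γ)ᶜ) := by
  classical
  induction F using Finset.induction_on with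
  | empty =>
    intro m x hx
    refine le_iSup_of_le ∅ (le_inf ?_ ?_)
    · simp
    · refine le_iInf fun γ => le_iInf fun _ => ?_
      rw [le_compl_iff_disjoint_right, disjoint_iff]
      exact hx γ (Finset.notMem_empty γ)
  | insert a F ha ih =>
    intro m x hx
    have h1 : x ⊓ (m a)ᶜ ≤
        ⨆ G : Finset J, (⨅ γ, ⨅ _ : γ ∈ G, m γ) ⊓ (⨅ γ, ⨅ _ : γ ∉ G, (m γ)ᶜ) := by
      refine ih m _ fun γ hγ => ?_
      by_cases hγa : γ = a
      · subst hγa
        rw [inf_assoc, compl_inf_self, inf_bot_eq]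
      · rw [← le_bot_iff, ← hx γ (by simp [hγ, hγa])]
        exact inf_le_inf_right _ inf_le_left
    have h2 : x ⊓ m a ≤
        ⨆ G : Finset J, (⨅ γ, ⨅ _ : γ ∈ G, m γ) ⊓ (⨅ γ, ⨅ _ : γ ∉ G, (m γ)ᶜ) := by
      have h3 := ih (fun γ => if γ = a then ⊥ else m γ) (x ⊓ m a) fun γ hγ => by
        by_cases hγa : γ = a
        · simp [hγa]
        · simp only [hγa, if_false]
          rw [← le_bot_iff, ← hx γ (by simp [hγ, hγa])]
          exact inf_le_inf_right _ inf_le_left
      have h4 := le_inf h3 (inf_le_right : x ⊓ m a ≤ m a)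
      refine h4.trans ?_
      rw [iSup_inf_eq]
      refine iSup_le fun G => le_iSup_of_le (insert a G) (le_inf ?_ ?_)
      · refine le_iInf fun γ => le_iInf fun hγ => ?_
        by_cases hγa : γ = a
        · subst hγa
          exact inf_le_right
        · have hγG : γ ∈ G := by simpa [hγa] using hγ
          refine (inf_le_left.trans inf_le_left).trans ((iInf₂_le γ hγG).trans ?_)
          simp [hγa]
      · refine le_iInf fun γ => le_iInf fun hγ => ?_
        have hγa : γ ≠ a := fun h => hγ (by simp [h])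
        have hγG : γ ∉ G := fun h => hγ (by simp [h])
        refine (inf_le_left.trans inf_le_right).trans ((iInf₂_le γ hγG).trans ?_)
        simp [hγa]
    calc x = x ⊓ m a ⊔ x ⊓ (m a)ᶜ := by rw [← inf_sup_left, sup_compl_eq_top, inf_top_eq]
      _ ≤ _ := sup_le h2 h1

/-- A subset of `J` is equal to a finite set if its elements are decided. -/
theorem le_eq_fsub {x : B} {E : BSet B} (hE : x ≤ sub E (ck B J)) (G : Finset J) :
    x ⊓ ((⨅ γ : J, ⨅ _ : γ ∈ G, mem (chk γ) E) ⊓ (⨅ γ : J, ⨅ _ : γ ∉ G, (mem (chk γ) E)ᶜ)) ≤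
      eq E (fsub chk G) := by
  refine le_eq_of_forall _ _ _ (fun t => ?_) (fun t => ?_)
  · have h1 : x ⊓ ((⨅ γ : J, ⨅ _ : γ ∈ G, mem (chk γ) E) ⊓
        (⨅ γ : J, ⨅ _ : γ ∉ G, (mem (chk γ) E)ᶜ)) ⊓ mem t E ≤
        (⨅ γ : J, ⨅ _ : γ ∉ G, (mem (chk γ) E)ᶜ) ⊓ mem t E ⊓ ⨆ j : J, eq t (chk j) := by
      refine le_inf (le_inf ?_ inf_le_right) ?_
      · exact inf_le_left.trans (inf_le_right.trans inf_le_right)
      · rw [← mem_ck]
        exact (inf_le_inf_right _ (inf_le_left.trans hE)).trans (sub_mem _ _ _)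
    refine h1.trans ?_
    rw [inf_iSup_eq]
    refine iSup_le fun j => ?_
    by_cases hj : j ∈ G
    · rw [mem_fsub]
      exact inf_le_right.trans (le_iSup₂_of_le j hj le_rfl)
    · have h2 : (⨅ γ : J, ⨅ _ : γ ∉ G, (mem (chk γ) E)ᶜ) ⊓ mem t E ⊓ eq t (chk j) ≤
          (mem (chk j) E)ᶜ ⊓ mem (chk j) E := by
        refine le_inf ((inf_le_left.trans inf_le_left).trans (iInf₂_le j hj)) ?_
        refine le_trans ?_ (mem_congr_left t (chk j) E)
        exact le_inf inf_le_right (inf_le_left.trans inf_le_right)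
      refine h2.trans ?_
      rw [compl_inf_self]
      exact bot_le
  · rw [mem_fsub, inf_iSup_eq]
    refine iSup_le fun e => ?_
    rw [inf_iSup_eq]
    refine iSup_le fun he => ?_
    refine le_trans ?_ (mem_congr_left (chk e) t E)
    refine le_inf ?_ ?_
    · rw [eq_symm]
      exact inf_le_right
    · exact inf_le_left.trans (inf_le_right.trans (inf_le_left.trans (iInf₂_le e he)))

theorem le_isFin {x : B} {E : BSet B} (hE : x ≤ sub E (ck B J)) (F : Finset J)
    (h : ∀ γ, γ ∉ F → x ⊓ mem (chk γ) E = ⊥) : x ≤ isFin E := by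
  have h1 := exists_split F (fun γ => mem (chk γ) E) x h
  have h2 := le_inf (le_refl x) h1
  refine h2.trans ?_
  rw [inf_iSup_eq]
  refine iSup_le fun G => (le_eq_fsub hE G).trans ?_
  have h3 : eq (fsub chk G) E ⊓ isFin (fsub chk G) ≤ isFin E := Ext_isFin _ _
  rw [isFin_fsub, inf_top_eq, eq_symm] at h3
  exact h3

/-! ### The functions -/

theorem rel_chk (r : J → ℕ → B) (γ : J) (n : ℕ) :
    rel (relN chk chk r) (chk γ) (chk n) = r γ n := by
  rw [rel_relN]
  apply le_antisymm
  · refine iSup_le fun i => iSup_le fun j => ?_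
    by_cases hi : γ = i
    · subst hi
      by_cases hj : n = j
      · subst hj
        exact inf_le_left
      · rw [eq_chk hj, inf_bot_eq, inf_bot_eq]
        exact bot_le
    · rw [eq_chk hi, bot_inf_eq, inf_bot_eq]
      exact bot_le
  · refine le_iSup_of_le γ (le_iSup_of_le n ?_)
    rw [eq_refl, eq_refl, inf_top_eq, inf_top_eq]

theorem isMap_relN (r : J → ℕ → B) (h1 : ∀ γ, ⨆ n, r γ n = ⊤)
    (h2 : ∀ γ n m, n ≠ m → r γ n ⊓ r γ m = ⊥) :
    isMap (relN chk chk r) (ck B J) (ck B ℕ) = ⊤ := by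
  unfold isMap
  refine top_le_iff.mp (le_inf ?_ ?_)
  · rw [all_ck (Ext.ex fun y => Ext.rel1 _ y)]
    refine le_iInf fun γ => ?_
    rw [ex_ck (Ext.rel2 _ _), ← h1 γ]
    exact iSup_mono fun n => (rel_chk r γ n).ge
  · rw [all_ck (Ext.all fun y => Ext.all fun y' =>
      Ext.himp (Ext.inf (Ext.rel1 _ y) (Ext.rel1 _ y')) (Ext.const _))]
    refine le_iInf fun γ => ?_
    rw [all_ck (Ext.all fun y' => Ext.himp (Ext.inf (Ext.rel2 _ _) (Ext.const _))
      (Ext.eq_left y'))]
    refine le_iInf fun n => ?_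
    rw [all_ck (Ext.himp (Ext.inf (Ext.const _) (Ext.rel2 _ _)) (Ext.eq_right _))]
    refine le_iInf fun m => ?_
    rw [le_himp_iff, top_inf_eq, rel_chk, rel_chk]
    by_cases h : n = m
    · subst h
      rw [eq_refl]
      exact le_top
    · rw [h2 γ n m h]
      exact bot_le

/-! ### Replacement of the functions -/

theorem Ext_rel0 (x y : BSet B) : Ext (fun F => rel F x y) := by
  have h : (fun F : BSet B => rel F x y) = fun F => mem (opr x y) F := by
    funext F
    rw [rel_eq]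
  rw [h]
  exact Ext.mem_right _

theorem Ext_equiv {φ ψ : BSet B → B} (h : Ext φ) (h' : Ext ψ) :
    Ext (fun x => equiv (φ x) (ψ x)) :=
  Ext.inf (Ext.himp h h') (Ext.himp h' h)

theorem Ext_isAgree_2 (E l I w : BSet B) : Ext (fun k => isAgree E k l I w) :=
  Ext.inf (Ext.const _) (Ext.all (R := I)
    (φ := fun k x => equiv (mem x E) (ex w fun n => rel k x n ⊓ rel l x n)) fun x =>
      Ext_equiv (Ext.const _) (Ext.ex (R := w) (φ := fun k n => rel k x n ⊓ rel l x n) fun n =>
        Ext.inf (Ext_rel0 x n) (Ext.const _)))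

theorem Ext_isAgree_3 (E k I w : BSet B) : Ext (fun l => isAgree E k l I w) :=
  Ext.inf (Ext.const _) (Ext.all (R := I)
    (φ := fun l x => equiv (mem x E) (ex w fun n => rel k x n ⊓ rel l x n)) fun x =>
      Ext_equiv (Ext.const _) (Ext.ex (R := w) (φ := fun l n => rel k x n ⊓ rel l x n) fun n =>
        Ext.inf (Ext.const _) (Ext_rel0 x n)))

theorem isAgree_le (E : BSet B) (r s : J → ℕ → B) (γ : J) :
    isAgree E (relN chk chk r) (relN chk chk s) (ck B J) (ck B ℕ) ⊓ mem (chk γ) E ≤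
      ⨆ n, r γ n ⊓ s γ n := by
  rw [← le_himp_iff]
  unfold isAgree all
  refine inf_le_right.trans ((iInf_le _ (chk γ)).trans ?_)
  rw [mem_chk_ck, top_himp]
  unfold equiv
  refine inf_le_left.trans ?_
  rw [ex_ck (Ext.inf (Ext.rel2 _ _) (Ext.rel2 _ _))]
  refine himp_le_himp_left ?_
  exact iSup_mono fun n => by rw [rel_chk, rel_chk]

theorem isAgree_isFin (E : BSet B) (r s : J → ℕ → B)
    (h : ⨆ F : Finset J, ⨅ γ : J, ⨅ _ : γ ∉ F, ⨅ n, (r γ n ⊓ s γ n)ᶜ = ⊤) :
    isAgree E (relN chk chk r) (relN chk chk s) (ck B J) (ck B ℕ) ≤ isFin E := by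
  set b := isAgree E (relN chk chk r) (relN chk chk s) (ck B J) (ck B ℕ) with hb
  calc b = b ⊓ ⨆ F : Finset J, ⨅ γ : J, ⨅ _ : γ ∉ F, ⨅ n, (r γ n ⊓ s γ n)ᶜ := by
        rw [h, inf_top_eq]
    _ ≤ isFin E := by
        rw [inf_iSup_eq]
        refine iSup_le fun F => ?_
        refine le_isFin (J := J) (inf_le_left.trans ?_) F fun γ hγ => ?_
        · exact inf_le_left
        · rw [← le_bot_iff]
          have h1 : b ⊓ (⨅ γ : J, ⨅ _ : γ ∉ F, ⨅ n, (r γ n ⊓ s γ n)ᶜ) ⊓ mem (chk γ) E ≤
              (⨅ n, (r γ n ⊓ s γ n)ᶜ) ⊓ ⨆ n, r γ n ⊓ s γ n := by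
            refine le_inf ?_ ?_
            · exact inf_le_left.trans (inf_le_right.trans (iInf₂_le γ hγ))
            · exact (inf_le_inf_right _ inf_le_left).trans (isAgree_le E r s γ)
          refine h1.trans ?_
          rw [← compl_iSup, compl_inf_self]

/-! ### The family -/

/-- The name of the family. -/
noncomputable def famN {K : Type} (e : K → J → B) (r : K → J → ℕ → B) : BSet B :=
  mk K (fun i => opr (mk J chk (e i)) (relN chk chk (r i))) (fun _ => ⊤)

theorem rel_famN {K : Type} (e : K → J → B) (r : K → J → ℕ → B) (x y : BSet B) :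
    rel (famN e r) x y = ⨆ i, eq x (mk J chk (e i)) ⊓ eq y (relN chk chk (r i)) := by
  rw [rel_eq, famN, mem_mk]
  exact iSup_congr fun i => by rw [top_inf_eq, eq_opr]

theorem isFamily_famN {K : Type} (e : K → J → B) (he : Function.Surjective e)
    (r : K → J → ℕ → B) (h1 : ∀ i γ, ⨆ n, r i γ n = ⊤)
    (h2 : ∀ i γ n m, n ≠ m → r i γ n ⊓ r i γ m = ⊥)
    (h3 : ∀ i j, i ≠ j → ⨆ F : Finset J, ⨅ γ : J, ⨅ _ : γ ∉ F, ⨅ n, (r i γ n ⊓ r j γ n)ᶜ = ⊤) :
    isFamily (famN e r) (ck B J) (ck B ℕ) = ⊤ := by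
  unfold isFamily
  refine top_le_iff.mp (le_inf ?_ ?_)
  · refine le_iInf fun A => ?_
    rw [le_himp_iff, top_inf_eq]
    obtain ⟨i, hi⟩ := he fun γ => mem (chk γ) A
    refine le_iSup_of_le (relN chk chk (r i)) ?_
    unfold isVal
    rw [isMap_relN (r i) (h1 i) (h2 i), inf_top_eq, rel_famN]
    refine le_iSup_of_le i ?_
    rw [eq_refl, inf_top_eq, hi]
    exact sub_ck_le' A
  · refine le_iInf fun A => le_iInf fun A' => le_iInf fun k => le_iInf fun l =>
      le_iInf fun E => ?_
    rw [le_himp_iff, top_inf_eq]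
    have h4 : sub A (ck B J) ⊓ sub A' (ck B J) ⊓ (eq A A')ᶜ ⊓ isVal (famN e r) A k (ck B J) (ck B ℕ)
        ⊓ isVal (famN e r) A' l (ck B J) (ck B ℕ) ⊓ isAgree E k l (ck B J) (ck B ℕ) ≤
        (eq A A')ᶜ ⊓ isAgree E k l (ck B J) (ck B ℕ) ⊓ rel (famN e r) A k ⊓
          rel (famN e r) A' l := by
      refine le_inf (le_inf (le_inf ?_ ?_) ?_) ?_
      · exact inf_le_left.trans (inf_le_left.trans (inf_le_left.trans inf_le_right))
      · exact inf_le_right
      · exact inf_le_left.trans (inf_le_left.trans (inf_le_right.trans inf_le_left))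
      · exact inf_le_left.trans (inf_le_right.trans inf_le_left)
    refine h4.trans ?_
    rw [rel_famN, rel_famN, inf_iSup_eq]
    refine iSup_le fun j => ?_
    rw [inf_iSup_eq, iSup_inf_eq]
    refine iSup_le fun i => ?_
    by_cases hij : i = j
    · subst hij
      refine le_trans (b := (eq A A')ᶜ ⊓ eq A A') ?_ ?_
      · refine le_inf (inf_le_left.trans (inf_le_left.trans inf_le_left)) ?_
        refine le_trans ?_ (eq_trans A (mk J chk (e i)) A')
        refine le_inf ?_ ?_
        · exact inf_le_left.trans (inf_le_right.trans inf_le_left)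
        · rw [eq_symm (mk J chk (e i)) A']
          exact inf_le_right.trans inf_le_left
      · rw [compl_inf_self]
        exact bot_le
    · have h5 : eq k (relN chk chk (r i)) ⊓ isAgree E k l (ck B J) (ck B ℕ) ≤
          isAgree E (relN chk chk (r i)) l (ck B J) (ck B ℕ) := Ext_isAgree_2 _ _ _ _ _ _
      have h6 : eq l (relN chk chk (r j)) ⊓ isAgree E (relN chk chk (r i)) l (ck B J) (ck B ℕ) ≤
          isAgree E (relN chk chk (r i)) (relN chk chk (r j)) (ck B J) (ck B ℕ) :=
        Ext_isAgree_3 _ _ _ _ _ _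
      refine le_trans ?_ (isAgree_isFin E (r i) (r j) (h3 i j hij))
      refine le_trans ?_ h6
      refine le_inf (inf_le_right.trans inf_le_right) ?_
      refine le_trans ?_ h5
      refine le_inf ?_ ?_
      · exact inf_le_left.trans (inf_le_right.trans inf_le_right)
      · exact inf_le_left.trans (inf_le_left.trans inf_le_right)

/-! ### The index set is uncountable -/

theorem all_ck_le {φ : BSet B → B} (j : J) : all (ck B J) φ ≤ φ (chk j) := by
  unfold all
  refine (iInf_le _ (chk j)).trans ?_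
  rw [mem_chk_ck, top_himp]

theorem embeds_ck_eq_bot
    (hns : ∀ x : ℕ → J → B, (∀ k ξ η, ξ ≠ η → x k ξ ⊓ x k η = ⊥) → ⨅ ξ, ⨆ k, x k ξ = ⊥) :
    embeds (ck B J) (ck B ℕ) = ⊥ := by
  rw [← le_bot_iff]
  refine iSup_le fun f => ?_
  set b := isInj f (ck B J) (ck B ℕ) with hb
  have h1 := hns (fun k i => b ⊓ rel f (chk i) (chk k)) (fun k i i' h => by
    rw [← le_bot_iff, ← eq_chk (B := B) h]
    have h2 : b ⊓ (rel f (chk i) (chk k) ⊓ rel f (chk i') (chk k)) ≤ eq (chk i) (chk i') := by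
      rw [← le_himp_iff, hb]
      unfold isInj
      refine inf_le_right.trans ?_
      exact ((all_ck_le (B := B) i).trans (all_ck_le (B := B) i')).trans (all_ck_le (B := B) k)
    refine le_trans ?_ h2
    refine le_inf (inf_le_left.trans inf_le_left) (le_inf ?_ ?_)
    · exact inf_le_left.trans inf_le_right
    · exact inf_le_right.trans inf_le_right)
  rw [← h1]
  refine le_iInf fun i => ?_
  have h3 : b ≤ ⨆ k : ℕ, rel f (chk i) (chk k) := by
    rw [← ex_ck (Ext.rel2 f (chk i)), hb]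
    unfold isInj isMap
    exact (inf_le_left.trans inf_le_left).trans (all_ck_le (B := B) i)
  calc b ≤ b ⊓ ⨆ k : ℕ, rel f (chk i) (chk k) := le_inf le_rfl h3
    _ = _ := inf_iSup_eq _ _

end Pool.Agent.LibSAD21
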