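import Pool.Agent.LibSAD21.Cond
import Pool.Agent.CpImages.Delta

/-!
Amalgamation of two conditions, and compatible members of a family with increasing countable parts.
-/

set_option autoImplicit false

namespace Pool.Agent.LibSAD21.Cond

variable {W K : Type} [LinearOrder W]

/-- The countable part of `b` extends the one of `a`. -/
structure CLe (b a : Cond W K) : Prop where
  al : a.al ≤ b.al
  S : a.S ⊆ b.S
  g : ∀ i ∈ a.S, ∀ γ < a.al, b.g i γ = a.g i γ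
  inj : ∀ i ∈ a.S, ∀ j ∈ a.S, i ≠ j → ∀ γ, a.al ≤ γ → γ < b.al → b.g i γ ≠ b.g j γ

theorem amal (a b : Cond W K) (hc : CLe b a)
    (h2 : ∀ i, i ∈ a.E → i ∈ b.E → ∀ γ, γ ∈ a.D → γ ∈ b.D → a.h i γ = b.h i γ)
    (h3 : ∀ i j, i ∈ a.E → i ∈ b.E → j ∈ a.E → j ∈ b.E → i ≠ j → ∀ γ,
      (γ ∈ a.D ∧ γ ∉ b.D ∨ γ ∈ b.D ∧ γ ∉ a.D) → b.g i γ ≠ b.g j γ) :
    ∃ c, c ≤ a ∧ c ≤ b := by
  classical
  obtain ⟨ι, hι⟩ := Set.countable_iff_exists_injOn.1 b.cS
  obtain ⟨M, hM⟩ : ∃ M : ℕ, ∀ i ∈ a.E ∪ b.E, ∀ γ ∈ a.D ∪ b.D, a.h i γ < M ∧ b.h i γ < M := by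
    refine ⟨((a.E ∪ b.E) ×ˢ (a.D ∪ b.D)).sup (fun x => a.h x.1 x.2 + b.h x.1 x.2) + 1, ?_⟩
    intro i hi γ hγ
    have := Finset.le_sup (f := fun x : K × W => a.h x.1 x.2 + b.h x.1 x.2)
      (Finset.mem_product.2 ⟨hi, hγ⟩ : (i, γ) ∈ (a.E ∪ b.E) ×ˢ (a.D ∪ b.D))
    simp only at this
    omega
  have haS : ∀ i ∈ a.E, i ∈ b.S := fun i hi => hc.S (a.ES i hi)
  set h : K → W → ℕ := fun i γ => if i ∈ a.E ∧ γ ∈ a.D then a.h i γ else
    if i ∈ b.E ∧ γ ∈ b.D then b.h i γ else if i ∈ b.S then M + ι i else 0 with hh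
  refine ⟨
    { al := b.al
      S := b.S
      g := b.g
      E := a.E ∪ b.E
      D := a.D ∪ b.D
      h := h
      cS := b.cS
      g0 := b.g0
      h0 := ?_
      ES := ?_
      DA := ?_ }, ?_, ?_⟩
  · intro i hi
    funext γ
    have h4 : i ∉ a.E := fun h => hi (haS i h)
    have h5 : i ∉ b.E := fun h => hi (b.ES i h)
    simp [hh, h4, h5, hi]
  · intro i hi
    rcases Finset.mem_union.1 hi with hi | hi
    · exact haS i hi
    · exact b.ES i hi
  · intro γ hγ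
    rcases Finset.mem_union.1 hγ with hγ | hγ
    · exact (a.DA γ hγ).trans_le hc.al
    · exact b.DA γ hγ
  · constructor
    · exact hc.al
    · exact hc.S
    · exact hc.g
    · exact hc.inj
    · exact Finset.subset_union_left
    · exact Finset.subset_union_left
    · intro i hi γ hγ
      simp [hh, hi, hγ]
    · intro i hi j hj hij γ h4 h5
      have h6 : γ ∈ b.D := (Finset.mem_union.1 h4).resolve_left h5
      have hval : ∀ i ∈ a.E, h i γ = if i ∈ b.E then b.h i γ else M + ι i := by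
        intro i hi
        by_cases h7 : i ∈ b.E <;> simp [hh, h5, h6, h7, haS i hi]
      by_cases hib : i ∈ b.E <;> by_cases hjb : j ∈ b.E
      · left
        exact h3 i j hi hib hj hjb hij γ (Or.inr ⟨h6, h5⟩)
      · right
        simp only [hval i hi, hval j hj, hib, hjb, if_true, if_false]
        have := (hM i (Finset.mem_union_left _ hi) γ h4).2
        omega
      · right
        simp only [hval i hi, hval j hj, hib, hjb, if_true, if_false]
        have := (hM j (Finset.mem_union_left _ hj) γ h4).2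
        omega
      · right
        simp only [hval i hi, hval j hj, hib, hjb, if_false]
        intro h7
        exact hij (hι (haS i hi) (haS j hj) (by omega))
  · constructor
    · exact le_rfl
    · exact subset_rfl
    · exact fun _ _ _ _ => rfl
    · exact fun _ _ _ _ _ _ h1 h2 => absurd h2 (not_lt.2 h1)
    · exact Finset.subset_union_right
    · exact Finset.subset_union_right
    · intro i hi γ hγ
      by_cases h7 : i ∈ a.E ∧ γ ∈ a.D
      · simp only [hh, h7, and_self, if_true]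
        exact h2 i h7.1 hi γ h7.2 hγ
      · simp only [hh, h7, hi, hγ, and_self, if_true, if_false]
    · intro i hi j hj hij γ h4 h5
      have h6 : γ ∈ a.D := (Finset.mem_union.1 h4).resolve_right h5
      have hval : ∀ i ∈ b.E, h i γ = if i ∈ a.E then a.h i γ else M + ι i := by
        intro i hi
        by_cases h7 : i ∈ a.E <;> simp [hh, h5, h6, h7, b.ES i hi]
      by_cases hib : i ∈ a.E <;> by_cases hjb : j ∈ a.E
      · left
        exact h3 i j hib hi hjb hj hij γ (Or.inl ⟨h6, h5⟩)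
      · right
        simp only [hval i hi, hval j hj, hib, hjb, if_true, if_false]
        have := (hM i (Finset.mem_union_right _ hi) γ h4).1
        omega
      · right
        simp only [hval i hi, hval j hj, hib, hjb, if_true, if_false]
        have := (hM j (Finset.mem_union_right _ hj) γ h4).1
        omega
      · right
        simp only [hval i hi, hval j hj, hib, hjb, if_false]
        intro h7
        exact hij (hι (b.ES i hi) (b.ES j hj) (by omega))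

open Pool.Agent.CpImages in
/-- In a family of conditions with increasing countable parts, indexed by an uncountable linear
order with countable initial segments, two conditions are compatible. -/
theorem exists_compat [Uncountable W] (hW : ∀ a : W, (Set.Iio a).Countable) (r : W → Cond W K)
    (hr : ∀ ξ η, ξ < η → CLe (r η) (r ξ)) :
    ∃ ξ η, ξ < η ∧ ∃ c, c ≤ r ξ ∧ c ≤ r η := by
  classical
  have h0 : ¬ (Set.univ : Set W).Countable := fun h => not_countable (Set.countable_univ_iff.1 h)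
  obtain ⟨Γ1, -, RE, h1, hRE⟩ := exists_delta Set.univ h0 (fun d => (r d).E)
  obtain ⟨Γ2, hΓ2, RD, h2, hRD⟩ := exists_delta Γ1 h1 (fun d => (r d).D)
  obtain ⟨c, h3⟩ := exists_uncountable_fiber Γ2 h2
    (fun d => fun (i : {i // i ∈ RE}) (γ : {γ // γ ∈ RD}) => (r d).h i.1 γ.1)
  set Γ3 := {d ∈ Γ2 | (fun (i : {i // i ∈ RE}) (γ : {γ // γ ∈ RD}) => (r d).h i.1 γ.1) = c}
    with hΓ3
  obtain ⟨ξ0, hξ0⟩ : Γ3.Nonempty := by
    rw [Set.nonempty_iff_ne_empty]
    rintro h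
    exact h3 (h ▸ Set.countable_empty)
  set β := (r ξ0).al with hβ
  have hbad : {d ∈ Γ3 | ∃ γ ∈ (r d).D, γ ∉ RD ∧ γ < β}.Countable := by
    have h4 : ∀ d : {d // d ∈ {d ∈ Γ3 | ∃ γ ∈ (r d).D, γ ∉ RD ∧ γ < β}},
        ∃ γ, γ ∈ (r d.1).D ∧ γ ∉ RD ∧ γ < β := fun d => d.2.2
    choose γ hγ using h4
    have h5 : Function.Injective (fun d => (⟨γ d, (hγ d).2.2⟩ : {γ // γ ∈ Set.Iio β})) := by
      intro d d' hdd
      by_contra hne
      have h6 : γ d = γ d' := congrArg Subtype.val hdd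
      have h7 : d.1 ≠ d'.1 := fun h => hne (Subtype.ext h)
      have h8 := hRD d.1 d.2.1.1 d'.1 d'.2.1.1 h7
      apply (hγ d).2.1
      rw [← h8, Finset.mem_inter]
      exact ⟨(hγ d).1, h6 ▸ (hγ d').1⟩
    have h6 : Countable {γ // γ ∈ Set.Iio β} := (hW β).to_subtype
    exact Set.countable_coe_iff.1 h5.countable
  have hIic : (Set.Iic ξ0).Countable := by
    rw [← Set.Iio_union_right]
    exact (hW ξ0).union (Set.countable_singleton _)
  have h4 : ¬ (Γ3 \ ({d ∈ Γ3 | ∃ γ ∈ (r d).D, γ ∉ RD ∧ γ < β} ∪ Set.Iic ξ0)).Countable := by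
    intro h
    apply h3
    refine (h.union (hbad.union hIic)).mono ?_
    intro d hd
    by_cases hd' : d ∈ {d ∈ Γ3 | ∃ γ ∈ (r d).D, γ ∉ RD ∧ γ < β} ∪ Set.Iic ξ0
    · exact Or.inr hd'
    · exact Or.inl ⟨hd, hd'⟩
  obtain ⟨ξ, hξ, η, hη, hne⟩ : ∃ ξ ∈ Γ3 \ ({d ∈ Γ3 | ∃ γ ∈ (r d).D, γ ∉ RD ∧ γ < β} ∪ Set.Iic ξ0),
      ∃ η ∈ Γ3 \ ({d ∈ Γ3 | ∃ γ ∈ (r d).D, γ ∉ RD ∧ γ < β} ∪ Set.Iic ξ0), ξ ≠ η := by
    by_contra hcon
    push Not at hcon
    exact h4 (Set.Subsingleton.countable fun a ha b hb => hcon a ha b hb)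
  have key : ∀ ξ ∈ Γ3 \ ({d ∈ Γ3 | ∃ γ ∈ (r d).D, γ ∉ RD ∧ γ < β} ∪ Set.Iic ξ0),
      ∀ η ∈ Γ3 \ ({d ∈ Γ3 | ∃ γ ∈ (r d).D, γ ∉ RD ∧ γ < β} ∪ Set.Iic ξ0), ξ < η →
      ∃ c, c ≤ r ξ ∧ c ≤ r η := by
    intro ξ hξ η hη hlt
    have hgood : ∀ d ∈ Γ3 \ ({d ∈ Γ3 | ∃ γ ∈ (r d).D, γ ∉ RD ∧ γ < β} ∪ Set.Iic ξ0),
        ∀ γ ∈ (r d).D, γ ∉ RD → β ≤ γ := by
      intro d hd γ hγ hγR
      by_contra hlt
      exact hd.2 (Or.inl ⟨hd.1, γ, hγ, hγR, not_le.1 hlt⟩)
    have hξ0η : ξ0 < η := by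
      by_contra h
      exact hη.2 (Or.inr (not_lt.1 h))
    have hΓ31 : ∀ d ∈ Γ3, d ∈ Γ1 := fun d hd => hΓ2 hd.1
    have hEE := hRE ξ (hΓ31 _ hξ.1) η (hΓ31 _ hη.1) hlt.ne
    have hDD := hRD ξ hξ.1.1 η hη.1.1 hlt.ne
    have hE0 := hRE ξ0 (hΓ31 _ hξ0) η (hΓ31 _ hη.1) hξ0η.ne
    apply amal _ _ (hr ξ η hlt)
    · intro i hi hi' γ hγ hγ'
      have h5 : i ∈ RE := by rw [← hEE]; exact Finset.mem_inter.2 ⟨hi, hi'⟩
      have h6 : γ ∈ RD := by rw [← hDD]; exact Finset.mem_inter.2 ⟨hγ, hγ'⟩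
      have h7 := congrFun (congrFun (hξ.1.2.trans hη.1.2.symm) ⟨i, h5⟩) ⟨γ, h6⟩
      exact h7
    · intro i j hi hi' hj hj' hij γ hγ
      have h5 : i ∈ RE := by rw [← hEE]; exact Finset.mem_inter.2 ⟨hi, hi'⟩
      have h6 : j ∈ RE := by rw [← hEE]; exact Finset.mem_inter.2 ⟨hj, hj'⟩
      have h7 : i ∈ (r ξ0).S := by
        rw [← hE0] at h5
        exact (r ξ0).ES i (Finset.mem_inter.1 h5).1
      have h8 : j ∈ (r ξ0).S := by
        rw [← hE0] at h6
        exact (r ξ0).ES j (Finset.mem_inter.1 h6).1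
      have h9 : γ ∉ RD := by
        rw [← hDD, Finset.mem_inter]
        rintro ⟨ha, hb⟩
        rcases hγ with ⟨-, h⟩ | ⟨-, h⟩
        · exact h hb
        · exact h ha
      refine (hr ξ0 η hξ0η).inj i h7 j h8 hij γ ?_ ?_
      · rcases hγ with ⟨h, -⟩ | ⟨h, -⟩
        · exact hgood ξ hξ γ h h9
        · exact hgood η hη γ h h9
      · rcases hγ with ⟨h, -⟩ | ⟨h, -⟩
        · exact ((r ξ).DA γ h).trans_le (hr ξ η hlt).al
        · exact (r η).DA γ h
  rcases lt_or_gt_of_ne hne with h | h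
  · exact ⟨ξ, η, h, key ξ hξ η hη h⟩
  · exact ⟨η, ξ, h, key η hη ξ hξ h⟩

end Pool.Agent.LibSAD21.Cond
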