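import Mathlib

/-!
The forcing which adds a family of functions from `ω₁` to `ℕ`, indexed by a type `K`, any two of
which agree at only finitely many points.
-/

set_option autoImplicit false

namespace Pool.Agent.LibSAD21

/-- Conditions: a countable part `(al, S, g)` and a finite part `(E, D, h)`; only the values
`g i γ` with `i ∈ S`, `γ < al` and `h i γ` with `i ∈ E`, `γ ∈ D` matter. -/
structure Cond (W K : Type) [LinearOrder W] where
  al : W
  S : Set K
  g : K → W → ℕ
  E : Finset K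
  D : Finset W
  h : K → W → ℕ
  cS : S.Countable
  g0 : ∀ i, i ∉ S → g i = 0
  h0 : ∀ i, i ∉ S → h i = 0
  ES : ∀ i ∈ E, i ∈ S
  DA : ∀ γ ∈ D, γ < al

namespace Cond

variable {W K : Type} [LinearOrder W]

/-- The order of the conditions: `q` is stronger than `p`. -/
structure Le (q p : Cond W K) : Prop where
  al : p.al ≤ q.al
  S : p.S ⊆ q.S
  g : ∀ i ∈ p.S, ∀ γ < p.al, q.g i γ = p.g i γ
  inj : ∀ i ∈ p.S, ∀ j ∈ p.S, i ≠ j → ∀ γ, p.al ≤ γ → γ < q.al → q.g i γ ≠ q.g j γ
  E : p.E ⊆ q.E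
  D : p.D ⊆ q.D
  h : ∀ i ∈ p.E, ∀ γ ∈ p.D, q.h i γ = p.h i γ
  fin : ∀ i ∈ p.E, ∀ j ∈ p.E, i ≠ j → ∀ γ ∈ q.D, γ ∉ p.D →
    q.g i γ ≠ q.g j γ ∨ q.h i γ ≠ q.h j γ

theorem Le.refl (p : Cond W K) : Le p p where
  al := le_rfl
  S := subset_rfl
  g := fun _ _ _ _ => rfl
  inj := fun _ _ _ _ _ _ h1 h2 => absurd h2 (not_lt.2 h1)
  E := subset_rfl
  D := subset_rfl
  h := fun _ _ _ _ => rfl
  fin := fun _ _ _ _ _ _ h1 h2 => absurd h1 h2

theorem Le.trans {r q p : Cond W K} (hrq : Le r q) (hqp : Le q p) : Le r p where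
  al := hqp.al.trans hrq.al
  S := hqp.S.trans hrq.S
  g := fun i hi γ hγ => (hrq.g i (hqp.S hi) γ (hγ.trans_le hqp.al)).trans (hqp.g i hi γ hγ)
  inj := by
    intro i hi j hj hij γ h1 h2
    rcases lt_or_ge γ q.al with h3 | h3
    · rw [hrq.g i (hqp.S hi) γ h3, hrq.g j (hqp.S hj) γ h3]
      exact hqp.inj i hi j hj hij γ h1 h3
    · exact hrq.inj i (hqp.S hi) j (hqp.S hj) hij γ h3 h2
  E := hqp.E.trans hrq.E
  D := hqp.D.trans hrq.D
  h := fun i hi γ hγ => (hrq.h i (hqp.E hi) γ (hqp.D hγ)).trans (hqp.h i hi γ hγ)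
  fin := by
    intro i hi j hj hij γ h1 h2
    by_cases h3 : γ ∈ q.D
    · have h4 := q.DA γ h3
      rw [hrq.g i (q.ES i (hqp.E hi)) γ h4, hrq.g j (q.ES j (hqp.E hj)) γ h4,
        hrq.h i (hqp.E hi) γ h3, hrq.h j (hqp.E hj) γ h3]
      exact hqp.fin i hi j hj hij γ h3 h2
    · exact hrq.fin i (hqp.E hi) j (hqp.E hj) hij γ h1 h3

instance : Preorder (Cond W K) where
  le := Le
  le_refl := Le.refl
  le_trans := fun _ _ _ h1 h2 => Le.trans h1 h2

theorem le_iff {q p : Cond W K} : q ≤ p ↔ Le q p := Iff.rfl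

/-- The function added by the forcing. -/
def val (p : Cond W K) (i : K) (γ : W) : ℕ := Nat.pair (p.g i γ) (p.h i γ)

theorem val_eq {q p : Cond W K} (h : q ≤ p) {i : K} {γ : W} (hi : i ∈ p.E) (hγ : γ ∈ p.D) :
    q.val i γ = p.val i γ := by
  unfold val
  rw [h.g i (p.ES i hi) γ (p.DA γ hγ), h.h i hi γ hγ]

theorem val_ne {q p : Cond W K} (h : q ≤ p) {i j : K} {γ : W} (hi : i ∈ p.E) (hj : j ∈ p.E)
    (hij : i ≠ j) (hγ : γ ∈ q.D) (hγ' : γ ∉ p.D) : q.val i γ ≠ q.val j γ := by
  unfold val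
  intro h1
  rcases Nat.pair_eq_pair.1 h1 with ⟨h2, h3⟩
  rcases h.fin i hi j hj hij γ hγ hγ' with h4 | h4
  · exact h4 h2
  · exact h4 h3

/-- Add an index. -/
noncomputable def addE (p : Cond W K) (i : K) : Cond W K := by
  classical
  exact
  { al := p.al
    S := insert i p.S
    g := p.g
    E := insert i p.E
    D := p.D
    h := p.h
    cS := p.cS.insert i
    g0 := fun j hj => p.g0 j fun h => hj (Set.mem_insert_of_mem _ h)
    h0 := fun j hj => p.h0 j fun h => hj (Set.mem_insert_of_mem _ h)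
    ES := fun j hj => by
      rcases Finset.mem_insert.1 hj with rfl | hj
      · exact Set.mem_insert _ _
      · exact Set.mem_insert_of_mem _ (p.ES j hj)
    DA := p.DA }

theorem addE_le (p : Cond W K) (i : K) : p.addE i ≤ p where
  al := le_rfl
  S := Set.subset_insert _ _
  g := fun _ _ _ _ => rfl
  inj := fun _ _ _ _ _ _ h1 h2 => absurd h2 (not_lt.2 h1)
  E := by
    intro j hj
    simp only [addE, Finset.mem_insert]
    exact Or.inr hj
  D := subset_rfl
  h := fun _ _ _ _ => rfl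
  fin := fun _ _ _ _ _ _ h1 h2 => absurd h1 h2

theorem mem_addE (p : Cond W K) (i : K) : i ∈ (p.addE i).E := by
  simp only [addE, Finset.mem_insert, true_or]

theorem exists_addE (p : Cond W K) (i : K) : ∃ q, q ≤ p ∧ i ∈ q.E :=
  ⟨p.addE i, p.addE_le i, p.mem_addE i⟩

/-- Extend the countable part up to `β`, and add `γ < β` to the finite part. -/
theorem exists_addD [NoMaxOrder W] (p : Cond W K) (γ : W) : ∃ q, q ≤ p ∧ γ ∈ q.D := by
  classical
  by_cases hγD : γ ∈ p.D
  · exact ⟨p, le_rfl, hγD⟩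
  obtain ⟨β, hβ⟩ := exists_gt (max p.al γ)
  have h1 : p.al ≤ β := (le_max_left _ _).trans hβ.le
  have h2 : γ < β := (le_max_right _ _).trans_lt hβ
  obtain ⟨ι, hι⟩ := Set.countable_iff_exists_injOn.1 p.cS
  refine ⟨
    { al := β
      S := p.S
      g := fun i γ' => if i ∈ p.S then (if γ' < p.al then p.g i γ' else ι i) else 0
      E := p.E
      D := insert γ p.D
      h := fun i γ' => if i ∈ p.S then (if γ' ∈ p.D then p.h i γ' else ι i) else 0
      cS := p.cS
      g0 := fun j hj => by ext; simp [hj]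
      h0 := fun j hj => by ext; simp [hj]
      ES := p.ES
      DA := ?_ }, ?_, ?_⟩
  · intro γ' hγ'
    rcases Finset.mem_insert.1 hγ' with rfl | hγ'
    · exact h2
    · exact (p.DA γ' hγ').trans_le h1
  · constructor
    · exact h1
    · exact subset_rfl
    · intro i hi γ' hγ'
      simp [hi, hγ']
    · intro i hi j hj hij γ' h3 h4
      simp only [hi, hj, if_true, not_lt.2 h3, if_false]
      exact fun h => hij (hι hi hj h)
    · exact subset_rfl
    · exact Finset.subset_insert _ _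
    · intro i hi γ' hγ'
      simp [p.ES i hi, hγ']
    · intro i hi j hj hij γ' h3 h4
      right
      simp only [p.ES i hi, p.ES j hj, if_true, h4, if_false]
      exact fun h => hij (hι (p.ES i hi) (p.ES j hj) h)
  · exact Finset.mem_insert_self _ _

/-- The condition with the countable part of `r` and the finite part of `p`. -/
noncomputable def pure (r p : Cond W K) (h : r ≤ p) : Cond W K where
  al := r.al
  S := r.S
  g := r.g
  E := p.E
  D := p.D
  h := p.h
  cS := r.cS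
  g0 := r.g0
  h0 := fun i hi => p.h0 i fun h' => hi (h.S h')
  ES := fun i hi => h.S (p.ES i hi)
  DA := fun γ hγ => (p.DA γ hγ).trans_le h.al

theorem pure_le (r p : Cond W K) (h : r ≤ p) : pure r p h ≤ p where
  al := h.al
  S := h.S
  g := h.g
  inj := h.inj
  E := subset_rfl
  D := subset_rfl
  h := fun _ _ _ _ => rfl
  fin := fun _ _ _ _ _ _ h1 h2 => absurd h1 h2

theorem le_pure (r p : Cond W K) (h : r ≤ p) : r ≤ pure r p h where
  al := le_rfl
  S := subset_rfl
  g := fun _ _ _ _ => rfl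
  inj := fun _ _ _ _ _ _ h1 h2 => absurd h2 (not_lt.2 h1)
  E := h.E
  D := h.D
  h := h.h
  fin := h.fin

/-- `q` is an extension of `p` with the same finite part. -/
structure PureLe (q p : Cond W K) : Prop where
  le : q ≤ p
  E : q.E = p.E
  D : q.D = p.D
  h : q.h = p.h

theorem PureLe.refl (p : Cond W K) : PureLe p p := ⟨le_rfl, rfl, rfl, rfl⟩

theorem PureLe.trans {r q p : Cond W K} (h1 : PureLe r q) (h2 : PureLe q p) : PureLe r p :=
  ⟨h1.le.trans h2.le, h1.E.trans h2.E, h1.D.trans h2.D, h1.h.trans h2.h⟩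

theorem pure_pureLe (r p : Cond W K) (h : r ≤ p) : PureLe (pure r p h) p :=
  ⟨pure_le r p h, rfl, rfl, rfl⟩

end Cond

end Pool.Agent.LibSAD21
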