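import Pool.Agent.LibSAD21.Gen

/-!
Antichains of the forcing have at most `2 ^ ℵ₁` members, and names for subsets of `ω₁` can be
enumerated by the index type `K`.
-/

set_option autoImplicit false

open Cardinal

namespace Pool.Agent.LibSAD21

/-- Unions of at most `μ` sets with at most `μ` elements. -/
theorem mk_iUnion_le_of {α ι : Type} {μ : Cardinal.{0}} (hμ : ℵ₀ ≤ μ) (hι : #ι ≤ μ)
    (s : ι → Set α) (hs : ∀ i, #(s i) ≤ μ) : #(⋃ i, s i) ≤ μ := by
  calc #(⋃ i, s i) ≤ sum fun i => #(s i) := mk_iUnion_le_sum_mk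
    _ ≤ sum fun _ : ι => μ := sum_le_sum _ _ hs
    _ = #ι * μ := by rw [sum_const, lift_id, lift_id]
    _ ≤ μ * μ := mul_le_mul_left hι μ
    _ = μ := mul_eq_self hμ

/-- The countable subsets of a set with at most `μ` elements. -/
theorem mk_countable_le {α : Type} {μ : Cardinal.{0}} (hμ : ℵ₀ ≤ μ) (hμω : μ ^ ℵ₀ = μ)
    (Z : Set α) (hZ : #Z ≤ μ) : #{s : Set α // s.Countable ∧ s ⊆ Z} ≤ μ := by
  have h1 : #{s : Set α // s.Countable ∧ s ⊆ Z} ≤ #{t : Set Z // #t ≤ ℵ₀} := by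
    refine mk_le_of_injective
      (f := fun s => (⟨Subtype.val ⁻¹' s.1, ?_⟩ : {t : Set Z // #t ≤ ℵ₀})) ?_
    · rw [mk_le_aleph0_iff, Set.countable_coe_iff]
      exact s.2.1.preimage Subtype.val_injective
    · intro s t hst
      have h2 : (Subtype.val ⁻¹' s.1 : Set Z) = Subtype.val ⁻¹' t.1 := congrArg Subtype.val hst
      apply Subtype.ext
      ext x
      constructor
      · intro hx
        have : (⟨x, s.2.2 hx⟩ : Z) ∈ (Subtype.val ⁻¹' t.1 : Set Z) := h2 ▸ hx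
        exact this
      · intro hx
        have : (⟨x, t.2.2 hx⟩ : Z) ∈ (Subtype.val ⁻¹' s.1 : Set Z) := h2 ▸ hx
        exact this
  calc _ ≤ _ := h1
    _ ≤ max #Z ℵ₀ ^ ℵ₀ := mk_bounded_set_le _ _
    _ ≤ μ ^ ℵ₀ := power_le_power_right (max_le hZ hμ)
    _ = μ := hμω

section

variable {W K Λ J : Type} [LinearOrder W] [WellFoundedLT W] [NoMaxOrder W] [Nonempty W]

omit [Nonempty W] in
/-- Families of pairwise incompatible countable partial functions from `K` to `Λ`. -/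
theorem anti_bound (hW : ∀ a : W, (Set.Iio a).Countable)
    (hWb : ∀ s : Set W, s.Countable → BddAbove s) {μ : Cardinal.{0}} (hμ : ℵ₀ ≤ μ)
    (hμω : μ ^ ℵ₀ = μ) (hWμ : #W ≤ μ) (hΛ : #Λ ≤ μ) (S : J → Set K)
    (hS : ∀ j, (S j).Countable) (v : J → K → Λ)
    (hanti : ∀ j j', j ≠ j' → ∃ i, i ∈ S j ∧ i ∈ S j' ∧ v j i ≠ v j' i) : #J ≤ μ := by
  classical
  by_contra hJ
  have hJ := not_le.1 hJ
  have hneJ : Nonempty J := by
    rw [← mk_ne_zero_iff]
    exact (zero_le.trans_lt hJ).ne'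
  let compat : J → Set (K × Λ) → Prop := fun j u => ∀ x ∈ u, x.1 ∈ S j → v j x.1 = x.2
  let c : Set (K × Λ) → J := fun u => if h : ∃ j, compat j u then h.choose
    else Classical.arbitrary J
  have hc : ∀ u, (∃ j, compat j u) → compat (c u) u := by
    intro u h
    simp only [c, dif_pos h]
    exact h.choose_spec
  let U : Set K → Type := fun Z => {u : Set (K × Λ) // u.Countable ∧ u ⊆ Z ×ˢ Set.univ}
  let Φ : Set K → Set K := fun Z => Z ∪ ⋃ u : U Z, S (c u.1)
  have hU : ∀ Z : Set K, #Z ≤ μ → #(U Z) ≤ μ := by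
    intro Z hZ
    apply mk_countable_le hμ hμω
    rw [mk_setProd, mk_univ]
    calc #Z * #Λ ≤ μ * μ := mul_le_mul' hZ hΛ
      _ = μ := mul_eq_self hμ
  have hcount : ∀ s : Set K, s.Countable → #s ≤ μ := fun s hs =>
    (mk_le_aleph0_iff.2 hs.to_subtype).trans hμ
  have hΦ : ∀ Z : Set K, #Z ≤ μ → #(Φ Z) ≤ μ := by
    intro Z hZ
    calc #(Φ Z) ≤ #Z + #(⋃ u : U Z, S (c u.1)) := mk_union_le _ _
      _ ≤ μ + μ := add_le_add hZ (mk_iUnion_le_of hμ (hU Z hZ) _ fun u => hcount _ (hS _))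
      _ = μ := add_eq_self hμ
  obtain ⟨f, hf⟩ := exists_rec (W := W) (T := Set K)
    (fun ξ f x => x = ⋃ η : Set.Iio ξ, Φ (f η.1 η.2)) (fun ξ f _ => ⟨_, rfl⟩)
  have hfμ : ∀ ξ, #(f ξ) ≤ μ := by
    intro ξ
    induction ξ using WellFoundedLT.induction with
    | ind ξ ih =>
      rw [hf ξ]
      refine mk_iUnion_le_of hμ ((mk_le_aleph0_iff.2 (hW ξ).to_subtype).trans hμ) _ fun η => ?_
      exact hΦ _ (ih η.1 η.2)
  have hmono : ∀ ξ η, η < ξ → Φ (f η) ⊆ f ξ := by
    intro ξ η hη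
    rw [hf ξ]
    exact Set.subset_iUnion (fun η : Set.Iio ξ => Φ (f η.1)) ⟨η, hη⟩
  have hmono' : ∀ ξ η, η < ξ → f η ⊆ f ξ := fun ξ η hη =>
    Set.subset_union_left.trans (hmono ξ η hη)
  set Z : Set K := ⋃ ξ, f ξ with hZdef
  have hZ : #Z ≤ μ := mk_iUnion_le_of hμ hWμ _ hfμ
  have hbd : ∀ s : Set K, s.Countable → s ⊆ Z → ∃ ξ, s ⊆ f ξ := by
    intro s hs hsZ
    have h1 : ∀ i : s, ∃ ξ, i.1 ∈ f ξ := fun i => Set.mem_iUnion.1 (hsZ i.2)
    choose ξ hξ using h1
    have := hs.to_subtype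
    obtain ⟨b, hb⟩ := hWb (Set.range ξ) (Set.countable_range _)
    obtain ⟨b', hb'⟩ := exists_gt b
    refine ⟨b', fun i hi => ?_⟩
    exact hmono' b' _ ((hb ⟨⟨i, hi⟩, rfl⟩).trans_lt hb') (hξ ⟨i, hi⟩)
  let graph : J → Set (K × Λ) := fun j => (fun i => (i, v j i)) '' (S j)
  have hJ0 : #{j : J // S j ⊆ Z} ≤ μ := by
    refine le_trans ?_ (hU Z hZ)
    refine mk_le_of_injective (f := fun j => (⟨graph j.1, ?_, ?_⟩ : U Z)) ?_
    · exact (hS j.1).image _
    · rintro _ ⟨i, hi, rfl⟩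
      exact ⟨j.2 hi, trivial⟩
    · intro j j' hjj
      have h1 : graph j.1 = graph j'.1 := congrArg Subtype.val hjj
      apply Subtype.ext
      by_contra hne
      obtain ⟨i, hi, hi', hv⟩ := hanti j.1 j'.1 hne
      have h2 : (i, v j.1 i) ∈ graph j'.1 := h1 ▸ ⟨i, hi, rfl⟩
      obtain ⟨i', -, h3⟩ := h2
      simp only [Prod.mk.injEq] at h3
      obtain ⟨rfl, h4⟩ := h3
      exact hv h4.symm
  obtain ⟨q, hq⟩ : ∃ q : J, ¬ S q ⊆ Z := by
    by_contra hcon
    push Not at hcon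
    have h1 : #J ≤ #{j : J // S j ⊆ Z} :=
      mk_le_of_injective (f := fun j => (⟨j, hcon j⟩ : {j : J // S j ⊆ Z}))
        fun a b h => congrArg Subtype.val h
    exact absurd (h1.trans hJ0) (not_le.2 hJ)
  set u : Set (K × Λ) := (fun i => (i, v q i)) '' (S q ∩ Z) with hu
  have hcu : compat (c u) u := by
    apply hc
    refine ⟨q, ?_⟩
    rintro _ ⟨i, -, rfl⟩ -
    rfl
  obtain ⟨ξ, hξ⟩ := hbd (S q ∩ Z) ((hS q).mono Set.inter_subset_left) Set.inter_subset_right
  obtain ⟨ξ', hξ'⟩ := exists_gt ξ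
  have h1 : S (c u) ⊆ Z := by
    have h2 : S (c u) ⊆ Φ (f ξ) := by
      refine Set.Subset.trans ?_ Set.subset_union_right
      refine Set.subset_iUnion (fun u : U (f ξ) => S (c u.1)) ⟨u, ?_, ?_⟩
      · exact ((hS q).mono Set.inter_subset_left).image _
      · rintro _ ⟨i, hi, rfl⟩
        exact ⟨hξ hi, trivial⟩
    exact h2.trans ((hmono ξ' ξ hξ').trans (Set.subset_iUnion f ξ'))
  have hne : c u ≠ q := fun h => hq (h ▸ h1)
  obtain ⟨i, hi, hiq, hv⟩ := hanti (c u) q hne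
  exact hv (hcu (i, v q i) ⟨i, ⟨hiq, h1 hi⟩, rfl⟩ hi)

end

namespace Cond

variable {W K J : Type} [LinearOrder W]

/-- Conditions with the same length and the same finite set of levels are compatible if their
functions agree on the common indices. -/
theorem compat_of_eq (p q : Cond W K) (hal : p.al = q.al) (hD : p.D = q.D)
    (h : ∀ i, i ∈ p.S → i ∈ q.S → (p.g i, p.h i) = (q.g i, q.h i)) : ∃ c, c ≤ p ∧ c ≤ q := by
  classical
  have hg : ∀ i, i ∈ p.S → i ∈ q.S → p.g i = q.g i := fun i hi hi' => congrArg Prod.fst (h i hi hi')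
  have hh : ∀ i, i ∈ p.S → i ∈ q.S → p.h i = q.h i := fun i hi hi' => congrArg Prod.snd (h i hi hi')
  refine ⟨
    { al := p.al
      S := p.S ∪ q.S
      g := fun i => if i ∈ p.S then p.g i else q.g i
      E := p.E ∪ q.E
      D := p.D
      h := fun i => if i ∈ p.S then p.h i else q.h i
      cS := p.cS.union q.cS
      g0 := fun i hi => by
        simp only [Set.mem_union, not_or] at hi
        rw [if_neg hi.1, q.g0 i hi.2]
      h0 := fun i hi => by
        simp only [Set.mem_union, not_or] at hi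
        rw [if_neg hi.1, q.h0 i hi.2]
      ES := fun i hi => by
        rcases Finset.mem_union.1 hi with hi | hi
        · exact Or.inl (p.ES i hi)
        · exact Or.inr (q.ES i hi)
      DA := p.DA }, ?_, ?_⟩
  · constructor
    · exact le_rfl
    · exact Set.subset_union_left
    · intro i hi γ _
      simp [hi]
    · exact fun _ _ _ _ _ _ h1 h2 => absurd h2 (not_lt.2 h1)
    · exact Finset.subset_union_left
    · exact subset_rfl
    · intro i hi γ _
      simp [p.ES i hi]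
    · exact fun _ _ _ _ _ _ h1 h2 => absurd h1 h2
  · constructor
    · exact hal.ge
    · exact Set.subset_union_right
    · intro i hi γ _
      by_cases h1 : i ∈ p.S
      · simp [h1, hg i h1 hi]
      · simp [h1]
    · intro _ _ _ _ _ _ h1 h2
      rw [← hal] at h1
      exact absurd h2 (not_lt.2 h1)
    · exact Finset.subset_union_right
    · exact hD.ge
    · intro i hi γ _
      by_cases h1 : i ∈ p.S
      · simp [h1, hh i h1 (q.ES i hi)]
      · simp [h1]
    · intro _ _ _ _ _ _ h1 h2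
      rw [← hD] at h2
      exact absurd h1 h2

variable [WellFoundedLT W] [NoMaxOrder W] [Nonempty W]

/-- Antichains have at most `μ` members, for `μ = ℵ₀ ^ |W|`. -/
theorem antichain_le (hW : ∀ a : W, (Set.Iio a).Countable)
    (hWb : ∀ s : Set W, s.Countable → BddAbove s) {μ : Cardinal.{0}} (hμ : ℵ₀ ≤ μ)
    (hμω : μ ^ ℵ₀ = μ) (hWμ : #W ≤ μ) (hΛ : #(W → ℕ) ≤ μ) (p : J → Cond W K)
    (hanti : ∀ j j', j ≠ j' → ¬ ∃ c, c ≤ p j ∧ c ≤ p j') : #J ≤ μ := by
  have h1 : ∀ x : W × Finset W, #{j : J // (p j).al = x.1 ∧ (p j).D = x.2} ≤ μ := by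
    intro x
    refine anti_bound (Λ := (W → ℕ) × (W → ℕ)) hW hWb hμ hμω hWμ ?_
      (fun j => (p j.1).S) (fun j => (p j.1).cS) (fun j i => ((p j.1).g i, (p j.1).h i)) ?_
    · rw [mk_prod]
      simp only [lift_id]
      calc #(W → ℕ) * #(W → ℕ) ≤ μ * μ := mul_le_mul' hΛ hΛ
        _ = μ := mul_eq_self hμ
    · intro j j' hne
      by_contra hcon
      push Not at hcon
      apply hanti j.1 j'.1 (fun h => hne (Subtype.ext h))
      exact compat_of_eq _ _ (j.2.1.trans j'.2.1.symm) (j.2.2.trans j'.2.2.symm) hcon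
  have h2 : (Set.univ : Set J) ⊆
      ⋃ x : W × Finset W, {j | (p j).al = x.1 ∧ (p j).D = x.2} := by
    intro j _
    exact Set.mem_iUnion.2 ⟨((p j).al, (p j).D), rfl, rfl⟩
  have h3 : #(W × Finset W) ≤ μ := by
    rw [mk_prod]
    simp only [lift_id]
    have h4 : #(Finset W) ≤ μ := by
      have : Infinite W := inferInstance
      rw [mk_finset_of_infinite]
      exact hWμ
    calc #W * #(Finset W) ≤ μ * μ := mul_le_mul' hWμ h4
      _ = μ := mul_eq_self hμ
  calc #J = #(Set.univ : Set J) := mk_univ.symm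
    _ ≤ _ := mk_le_mk_of_subset h2
    _ ≤ μ := mk_iUnion_le_of hμ h3 _ fun x => h1 x

end Cond

end Pool.Agent.LibSAD21
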