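import Pool.Agent.LibSAD21.Count

/-!
The names for subsets of `ω₁` are enumerated by the index type `K`.
-/

set_option autoImplicit false

open Cardinal

namespace Pool.Agent.LibSAD21

open Pool.Agent.LibTk83

variable {W K : Type} [LinearOrder W] [WellFoundedLT W] [NoMaxOrder W] [Nonempty W]

omit [WellFoundedLT W] [NoMaxOrder W] [Nonempty W] in
/-- The number of conditions. -/
theorem mk_cond_le [Infinite W] {μ : Cardinal.{0}} (hμ : ℵ₀ ≤ μ) (hWμ : #W ≤ μ)
    (hΛ : #(W → ℕ) ≤ μ) (hK : #K ^ μ = #K) (hμK : μ ≤ #K) : #(Cond W K) ≤ #K := by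
  classical
  have hKi : ℵ₀ ≤ #K := hμ.trans hμK
  have hinfK : Infinite K := infinite_iff.2 hKi
  let X := K × (W → ℕ) × (W → ℕ)
  have hX : #X ≤ #K := by
    have h1 : #X = #K * (#(W → ℕ) * #(W → ℕ)) := by
      simp only [X, mk_prod, lift_id]
    rw [h1]
    calc #K * (#(W → ℕ) * #(W → ℕ)) ≤ #K * (#K * #K) := by
          gcongr
          · exact hΛ.trans hμK
          · exact hΛ.trans hμK
      _ = #K := by rw [mul_eq_self hKi, mul_eq_self hKi]
  have hXc : #{s : Set X // s.Countable} ≤ #K := by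
    have h1 : #{s : Set X // s.Countable} = #{s : Set X // #s ≤ ℵ₀} := by
      congr 1
      simp only [mk_le_aleph0_iff, Set.countable_coe_iff]
    rw [h1]
    calc _ ≤ max #X ℵ₀ ^ ℵ₀ := mk_bounded_set_le _ _
      _ ≤ #K ^ ℵ₀ := power_le_power_right (max_le hX hKi)
      _ ≤ #K ^ μ := power_le_power_left (mk_ne_zero K) hμ
      _ = #K := hK
  let F : Cond W K → (W × Finset K × Finset W) × {s : Set X // s.Countable} := fun p =>
    ((p.al, p.E, p.D), ⟨(fun i => (i, p.g i, p.h i)) '' p.S, p.cS.image _⟩)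
  have hF : Function.Injective F := by
    rintro ⟨al, S, g, E, D, h, cS, g0, h0, ES, DA⟩ ⟨al', S', g', E', D', h', cS', g0', h0', ES', DA'⟩
      hpq
    simp only [F, Prod.mk.injEq, Subtype.mk.injEq] at hpq
    obtain ⟨⟨rfl, rfl, rfl⟩, himg⟩ := hpq
    have hmem : ∀ i ∈ S, i ∈ S' ∧ g' i = g i ∧ h' i = h i := by
      intro i hi
      have h1 : (i, g i, h i) ∈ (fun i => (i, g' i, h' i)) '' S' := himg ▸ ⟨i, hi, rfl⟩
      obtain ⟨j, hj, h2⟩ := h1
      simp only [Prod.mk.injEq] at h2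
      obtain ⟨rfl, h3, h4⟩ := h2
      exact ⟨hj, h3, h4⟩
    have hmem' : ∀ i ∈ S', i ∈ S := by
      intro i hi
      have h1 : (i, g' i, h' i) ∈ (fun i => (i, g i, h i)) '' S := himg.symm ▸ ⟨i, hi, rfl⟩
      obtain ⟨j, hj, h2⟩ := h1
      simp only [Prod.mk.injEq] at h2
      obtain ⟨rfl, -, -⟩ := h2
      exact hj
    obtain rfl : S = S' := Set.Subset.antisymm (fun i hi => (hmem i hi).1) hmem'
    obtain rfl : g = g' := by
      funext i
      by_cases hi : i ∈ S
      · exact (hmem i hi).2.1.symm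
      · rw [g0 i hi, g0' i hi]
    obtain rfl : h = h' := by
      funext i
      by_cases hi : i ∈ S
      · exact (hmem i hi).2.2.symm
      · rw [h0 i hi, h0' i hi]
    rfl
  have hWK : #W ≤ #K := hWμ.trans hμK
  calc #(Cond W K) ≤ _ := mk_le_of_injective hF
    _ = (#W * (#(Finset K) * #(Finset W))) * #{s : Set X // s.Countable} := by
        simp only [mk_prod, lift_id]
    _ ≤ (#K * (#K * #K)) * #K := by
        rw [mk_finset_of_infinite, mk_finset_of_infinite]
        gcongr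
    _ = #K := by rw [mul_eq_self hKi, mul_eq_self hKi, mul_eq_self hKi]

open Pool.Agent.CpImages in
/-- Each regular open set is generated by a small antichain. -/
theorem exists_antichain (hW : ∀ a : W, (Set.Iio a).Countable)
    (hWb : ∀ s : Set W, s.Countable → BddAbove s) {μ : Cardinal.{0}} (hμ : ℵ₀ ≤ μ)
    (hμω : μ ^ ℵ₀ = μ) (hWμ : #W ≤ μ) (hΛ : #(W → ℕ) ≤ μ) (b : RO (Cond W K)) :
    ∃ A : Set (Cond W K), #A ≤ μ ∧ RO.gen A = b := by
  obtain ⟨A, hA1, hA2, hA3⟩ := exists_maximal_pairwise {p : Cond W K | p ∈ b}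
    (fun p q => ¬ ∃ c, c ≤ p ∧ c ≤ q)
  refine ⟨A, ?_, ?_⟩
  · exact Cond.antichain_le hW hWb hμ hμω hWμ hΛ (fun a : A => a.1)
      fun a a' hne => hA2 a.2 a'.2 fun h => hne (Subtype.ext h)
  · apply le_antisymm
    · intro p hp
      refine RO.mem_of_dense fun q hq => ?_
      obtain ⟨r, hr, s, hs, hrs⟩ := RO.mem_gen.1 hp q hq
      exact ⟨r, hr, RO.mem_of_le hrs (hA1 hs)⟩
    · intro p hp
      rw [RO.mem_gen]
      intro q hq
      have hqb : q ∈ b := RO.mem_of_le hq hp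
      by_cases h : ∃ s ∈ A, ∃ c, c ≤ q ∧ c ≤ s
      · obtain ⟨s, hs, c, hc1, hc2⟩ := h
        exact ⟨c, hc1, s, hs, hc2⟩
      · push Not at h
        have hqA : q ∈ A := by
          apply hA3 q hqb
          intro e he _
          refine ⟨?_, ?_⟩
          · rintro ⟨c, hc1, hc2⟩
            exact h e he c hc1 hc2
          · rintro ⟨c, hc1, hc2⟩
            exact h e he c hc2 hc1
        exact ⟨q, le_rfl, q, hqA, le_rfl⟩

/-- An enumeration of the names for subsets of `W` by the index type `K`. -/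
theorem exists_enum [Infinite W] (hW : ∀ a : W, (Set.Iio a).Countable)
    (hWb : ∀ s : Set W, s.Countable → BddAbove s) {μ : Cardinal.{0}} (hμ : ℵ₀ ≤ μ)
    (hμω : μ ^ ℵ₀ = μ) (hWμ : #W ≤ μ) (hΛ : #(W → ℕ) ≤ μ) (hK : #K ^ μ = #K) (hμK : μ ≤ #K) :
    ∃ e : K → (W → RO (Cond W K)), Function.Surjective e := by
  have hKi : ℵ₀ ≤ #K := hμ.trans hμK
  have hne : Nonempty K := by
    rw [← mk_ne_zero_iff]
    exact (aleph0_pos.trans_le hKi).ne'
  have h1 : #(RO (Cond W K)) ≤ #K := by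
    have h2 : Function.Surjective (fun A : {A : Set (Cond W K) // #A ≤ μ} => RO.gen A.1) := by
      intro b
      obtain ⟨A, hA, hb⟩ := exists_antichain hW hWb hμ hμω hWμ hΛ b
      exact ⟨⟨A, hA⟩, hb⟩
    calc #(RO (Cond W K)) ≤ #{A : Set (Cond W K) // #A ≤ μ} := mk_le_of_surjective h2
      _ ≤ max #(Cond W K) ℵ₀ ^ μ := mk_bounded_set_le _ _
      _ ≤ #K ^ μ := power_le_power_right (max_le (mk_cond_le hμ hWμ hΛ hK hμK) hKi)
      _ = #K := hK
  have h3 : #(W → RO (Cond W K)) ≤ #K := by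
    rw [mk_arrow, lift_id, lift_id]
    calc #(RO (Cond W K)) ^ #W ≤ #K ^ #W := power_le_power_right h1
      _ ≤ #K ^ μ := power_le_power_left (mk_ne_zero K) hWμ
      _ = #K := hK
  obtain ⟨f⟩ : Nonempty ((W → RO (Cond W K)) ↪ K) := h3
  exact ⟨Function.invFun f, Function.invFun_surjective f.injective⟩

end Pool.Agent.LibSAD21
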