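import Pool.Agent.LibSAD21.Pres

/-!
The truth values of `k_i(γ) = n` for the generic functions `k_i`.
-/

set_option autoImplicit false

namespace Pool.Agent.LibSAD21

open Pool.Agent.LibTk83

variable {W K : Type} [LinearOrder W]

/-- The truth value of `k_i(γ) = n`. -/
noncomputable def kn (i : K) (γ : W) (n : ℕ) : RO (Cond W K) :=
  RO.gen {p | i ∈ p.E ∧ γ ∈ p.D ∧ p.val i γ = n}

theorem mem_kn_of {i : K} {γ : W} {n : ℕ} {p : Cond W K} (h : p ∈ (kn i γ n : RO (Cond W K))) :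
    ∃ r, r ≤ p ∧ i ∈ r.E ∧ γ ∈ r.D ∧ r.val i γ = n := by
  obtain ⟨r, hr, s, ⟨hs1, hs2, hs3⟩, hrs⟩ := RO.mem_gen.1 h p le_rfl
  exact ⟨r, hr, hrs.E hs1, hrs.D hs2, by rw [Cond.val_eq hrs hs1 hs2, hs3]⟩

theorem kn_total [NoMaxOrder W] (i : K) (γ : W) : ⨆ n, kn i γ n = (⊤ : RO (Cond W K)) := by
  rw [RO.eq_top_iff']
  intro p
  obtain ⟨q, hq, hi⟩ := p.exists_addE i
  obtain ⟨r, hr, hγ⟩ := q.exists_addD γ
  refine ⟨r, hr.trans hq, ?_⟩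
  have h1 : r ∈ kn i γ (r.val i γ) := by
    rw [kn, RO.mem_gen]
    exact fun s hs => ⟨s, le_rfl, r, ⟨hr.E hi, hγ, rfl⟩, hs⟩
  exact (le_iSup (fun n => kn i γ n) (r.val i γ)) h1

theorem kn_func (i : K) (γ : W) {n m : ℕ} (h : n ≠ m) :
    kn i γ n ⊓ kn i γ m = (⊥ : RO (Cond W K)) := by
  by_contra hcon
  obtain ⟨p, hp⟩ := RO.ne_bot_iff.1 hcon
  obtain ⟨h1, h2⟩ := RO.mem_inf.1 hp
  obtain ⟨r, hr, hi, hγ, hv⟩ := mem_kn_of h1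
  obtain ⟨s, hs, hi', hγ', hv'⟩ := mem_kn_of (RO.mem_of_le hr h2)
  apply h
  rw [← hv, ← hv', Cond.val_eq hs hi hγ]

theorem kn_fin {i j : K} (hij : i ≠ j) :
    ⨆ F : Finset W, ⨅ γ : W, ⨅ _ : γ ∉ F, ⨅ n, (kn i γ n ⊓ kn j γ n)ᶜ =
      (⊤ : RO (Cond W K)) := by
  rw [RO.eq_top_iff']
  intro p
  obtain ⟨q', hq', hi⟩ := p.exists_addE i
  obtain ⟨q, hq, hj⟩ := q'.exists_addE j
  refine ⟨q, hq.trans hq', ?_⟩
  have h1 : q ∈ ⨅ γ : W, ⨅ _ : γ ∉ q.D, ⨅ n, (kn i γ n ⊓ kn j γ n)ᶜ := by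
    simp only [RO.mem_iInf, RO.mem_compl]
    intro γ hγ n r hr hrn
    obtain ⟨h2, h3⟩ := RO.mem_inf.1 hrn
    obtain ⟨s, hs, hsi, hsγ, hsv⟩ := mem_kn_of h2
    obtain ⟨t, ht, hti, htγ, htv⟩ := mem_kn_of (RO.mem_of_le hs h3)
    have htq : t ≤ q := ht.trans (hs.trans hr)
    apply Cond.val_ne htq (hq.E hi) hj hij htγ hγ
    rw [htv, Cond.val_eq ht hsi hsγ, hsv]
  exact (le_iSup (fun F : Finset W => ⨅ γ : W, ⨅ _ : γ ∉ F, ⨅ n, (kn i γ n ⊓ kn j γ n)ᶜ) q.D) h1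

end Pool.Agent.LibSAD21
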