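import Mathlib

/-!
The implication (helper56): from an almost disjoint family to a non-metrizable compact image.
-/

set_option autoImplicit false

open Set Filter Topology Cardinal

namespace Pool.Agent.LibSAD21.Imp

/-- There is an uncountable set `I` and a family of functions `I → ℕ`, one for each subset
of `I`, any two of which agree at only finitely many points. -/
def StronglyAlmostDisjointFamily : Prop :=
  ∃ (I : Type) (k : Set I → I → ℕ), Uncountable I ∧
    ∀ A B : Set I, A ≠ B → {i | k A i = k B i}.Finite

/-! ### The reading functional on the binary tree -/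

/-- bump at one -/
noncomputable def cb (u : ℝ) : ℝ := max 0 (1 - 2 * |u - 1|)

/-- clamp of `u - 2` -/
noncomputable def db (u : ℝ) : ℝ := max 0 (min 1 (u - 2))

lemma cb_zero : cb 0 = 0 := by unfold cb; norm_num
lemma cb_one : cb 1 = 1 := by unfold cb; norm_num
lemma cb_of_lt {u : ℝ} (h : u < 1 / 2) : cb u = 0 := by
  unfold cb
  apply max_eq_left
  have : |u - 1| = 1 - u := by rw [abs_of_neg (by linarith)]; ring
  rw [this]; linarith
lemma cb_two_add {r : ℝ} (h : 0 ≤ r) : cb (2 + r) = 0 := by
  unfold cb
  apply max_eq_left
  have : |2 + r - 1| = 1 + r := by rw [abs_of_nonneg (by linarith)]; ring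
  rw [this]; linarith
lemma db_zero : db 0 = 0 := by unfold db; norm_num
lemma db_one : db 1 = 0 := by unfold db; norm_num
lemma db_of_lt {u : ℝ} (h : u < 1 / 2) : db u = 0 := by
  unfold db
  apply max_eq_left
  exact (min_le_right _ _).trans (by linarith)
lemma db_two_add {r : ℝ} (h : 0 ≤ r) (h1 : r ≤ 1) : db (2 + r) = r := by
  unfold db
  rw [show 2 + r - 2 = r by ring, min_eq_right h1, max_eq_right h]

lemma continuous_cb : Continuous cb := by unfold cb; fun_prop
lemma continuous_db : Continuous db := by unfold db; fun_prop

/-- reading down `N` levels of the binary tree -/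
noncomputable def rd : ℕ → (List Bool → ℝ) → ℝ
  | 0, _ => 0
  | N + 1, s => db (s []) + cb (s []) *
      (rd N (fun t => s (false :: t)) + rd N (fun t => s (true :: t)))

lemma continuous_rd (N : ℕ) : Continuous (rd N) := by
  induction N with
  | zero => simpa [rd] using continuous_const
  | succ N ih =>
    show Continuous (fun s : List Bool → ℝ => db (s []) + cb (s []) *
      (rd N (fun t => s (false :: t)) + rd N (fun t => s (true :: t))))
    have h1 : Continuous (fun s : List Bool → ℝ => rd N (fun t => s (false :: t))) :=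
      ih.comp (continuous_pi fun t => continuous_apply _)
    have h2 : Continuous (fun s : List Bool → ℝ => rd N (fun t => s (true :: t))) :=
      ih.comp (continuous_pi fun t => continuous_apply _)
    exact (continuous_db.comp (continuous_apply _)).add
      ((continuous_cb.comp (continuous_apply _)).mul (h1.add h2))

lemma rd_zero_fun (N : ℕ) : rd N (fun _ => 0) = 0 := by
  cases N with
  | zero => rfl
  | succ N => simp [rd, db_zero, cb_zero]

/-- stabilization -/
lemma rd_stable (N : ℕ) : ∀ (s : List Bool → ℝ), (∀ t : List Bool, t.length = N → s t < 1 / 2) →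
    ∀ M, N ≤ M → rd M s = rd N s := by
  induction N with
  | zero =>
    intro s hs M _
    cases M with
    | zero => rfl
    | succ M =>
      have h := hs [] rfl
      simp [rd, db_of_lt h, cb_of_lt h]
  | succ N ih =>
    intro s hs M hM
    obtain ⟨M, rfl⟩ : ∃ M', M = M' + 1 := ⟨M - 1, by omega⟩
    have h1 := ih (fun t => s (false :: t)) (fun t ht => hs _ (by simp [ht])) M (by omega)
    have h2 := ih (fun t => s (true :: t)) (fun t ht => hs _ (by simp [ht])) M (by omega)
    simp only [rd, h1, h2]

/-- initial segments -/
def pre (z : ℕ → Bool) : ℕ → List Bool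
  | 0 => []
  | m + 1 => z 0 :: pre (fun j => z (j + 1)) m

lemma length_pre (m : ℕ) : ∀ z : ℕ → Bool, (pre z m).length = m := by
  induction m with
  | zero => intro z; rfl
  | succ m ih => intro z; simp [pre, ih]

/-- two sequences with the same initial segment of length `m` agree below `m` -/
lemma pre_eq (m : ℕ) : ∀ (z w : ℕ → Bool), pre z m = pre w m → ∀ j < m, z j = w j := by
  induction m with
  | zero => intro z w _ j hj; omega
  | succ m ih =>
    intro z w h j hj
    simp only [pre, List.cons.injEq] at h
    cases j with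
    | zero => exact h.1
    | succ j => exact ih _ _ h.2 j (by omega)

/-- the coded chain -/
noncomputable def chn (z : ℕ → Bool) (k : ℕ) (r : ℝ) (t : List Bool) : ℝ :=
  if t = pre z t.length then (if t.length < k then 1 else if t.length = k then 2 + r else 0) else 0

lemma chn_cons (z : ℕ → Bool) (k : ℕ) (r : ℝ) (b : Bool) (t : List Bool) :
    chn z (k + 1) r (b :: t) = if b = z 0 then chn (fun j => z (j + 1)) k r t else 0 := by
  unfold chn
  simp only [List.length_cons, pre, List.cons.injEq, Nat.add_lt_add_iff_right,
    Nat.add_right_cancel_iff]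
  by_cases hb : b = z 0 <;> simp [hb]

lemma rd_chn (k : ℕ) : ∀ (z : ℕ → Bool) (r : ℝ), 0 ≤ r → r ≤ 1 → ∀ N, k < N →
    rd N (chn z k r) = r := by
  induction k with
  | zero =>
    intro z r h0 h1 N hN
    obtain ⟨N, rfl⟩ : ∃ N', N = N' + 1 := ⟨N - 1, by omega⟩
    have : chn z 0 r [] = 2 + r := by simp [chn, pre]
    simp [rd, this, db_two_add h0 h1, cb_two_add h0]
  | succ k ih =>
    intro z r h0 h1 N hN
    obtain ⟨N, rfl⟩ : ∃ N', N = N' + 1 := ⟨N - 1, by omega⟩
    have h : chn z (k + 1) r [] = 1 := by simp [chn, pre]
    simp only [rd, h, db_one, cb_one, chn_cons, zero_add, one_mul]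
    have hN' : k < N := by omega
    cases hz : z 0 with
    | false =>
      simp only [if_true, Bool.true_eq_false, if_false]
      rw [rd_zero_fun, add_zero]
      exact ih _ r h0 h1 N hN'
    | true =>
      simp only [if_true, Bool.false_eq_true, if_false]
      rw [rd_zero_fun, zero_add]
      exact ih _ r h0 h1 N hN'

lemma chn_finite (z : ℕ → Bool) (k : ℕ) (r : ℝ) : {t | chn z k r t ≠ 0}.Finite := by
  apply ((Set.finite_Iic k).image (pre z)).subset
  intro t ht
  simp only [Set.mem_ofPred_eq, chn] at ht
  by_cases h : t = pre z t.length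
  · rw [if_pos h] at ht
    refine ⟨t.length, ?_, h.symm⟩
    simp only [Set.mem_Iic]
    by_contra hlt
    have hlt := not_le.1 hlt
    rw [if_neg (by omega), if_neg (by omega)] at ht
    exact ht rfl
  · rw [if_neg h] at ht
    exact absurd rfl ht

lemma chn_bounds (z : ℕ → Bool) (k : ℕ) (r : ℝ) (h0 : 0 ≤ r) (h1 : r ≤ 1) (t : List Bool) :
    chn z k r t ∈ Set.Icc (0 : ℝ) 3 := by
  unfold chn
  split_ifs <;> constructor <;> linarith

/-! ### The compact space -/

section space

variable {I : Type} (k : (I → unitInterval) → I → ℕ) (x : (I → unitInterval) → ℕ → Bool)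

/-- the embedding of the index set of pairs -/
noncomputable def Ph (d : I × List Bool) : (I → unitInterval) → ℝ :=
  fun y => chn (x y) (k y d.1) (y d.1 : ℝ) d.2

/-- the compact set -/
def Kset : Set ((I → unitInterval) → ℝ) := closure (range (Ph k x))

lemma Kset_compact : IsCompact (Kset k x) := by
  have h1 : IsCompact (Set.pi univ (fun _ : I → unitInterval => Set.Icc (0 : ℝ) 3)) :=
    isCompact_univ_pi fun _ => isCompact_Icc
  apply h1.of_isClosed_subset isClosed_closure
  apply closure_minimal
  · rintro _ ⟨d, rfl⟩ y _
    exact chn_bounds _ _ _ (y d.1).2.1 (y d.1).2.2 _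
  · exact isClosed_set_pi fun _ _ => isClosed_Icc

/-- the base functions -/
noncomputable def bs (o : Option (List Bool)) : (I → unitInterval) → ℝ :=
  match o with
  | none => fun _ => 0
  | some t => fun y => if t = pre (x y) t.length then 1 else 0

lemma Ph_eq_bs {d : I × List Bool} {y : I → unitInterval} (h : d.2.length < k y d.1) :
    Ph k x d y = bs x (some d.2) y := by
  unfold Ph bs chn
  simp [h]

lemma Kset_classify (hk : ∀ y z, y ≠ z → {i | k y i = k z i}.Finite)
    (hx : Function.Injective x) (q : (I → unitInterval) → ℝ) (hq : q ∈ Kset k x) :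
    (∃ d, q = Ph k x d) ∨ ∃ o, {y | q y ≠ bs x o y}.Finite := by
  classical
  have hcl : q ∈ closure (range (Ph k x)) := hq
  rw [mem_closure_iff_clusterPt] at hcl
  -- an ultrafilter on the pairs
  have hne : (Filter.comap (Ph k x) (𝓝 q)).NeBot := by
    rw [Filter.comap_neBot_iff_frequently]
    have := hq
    rw [Kset, mem_closure_iff_frequently] at this
    exact this
  obtain ⟨W, hW⟩ : ∃ W : Ultrafilter (I × List Bool), (W : Filter _) ≤ comap (Ph k x) (𝓝 q) :=
    ⟨Ultrafilter.of _, Ultrafilter.of_le _⟩
  have htend : Tendsto (Ph k x) W (𝓝 q) := tendsto_iff_comap.2 hW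
  have hy : ∀ y, Tendsto (fun d => Ph k x d y) W (𝓝 (q y)) := fun y =>
    (tendsto_pi_nhds.1 htend) y
  -- eventual constancy gives the value
  have hval : ∀ (y : I → unitInterval) (c : ℝ), (∀ᶠ d in (W : Filter _), Ph k x d y = c) →
      q y = c := by
    intro y c hc
    exact tendsto_nhds_unique (hy y) (tendsto_const_nhds.congr' (hc.mono fun d hd => hd.symm))
  by_cases h1 : ∃ t0, ∀ᶠ d in (W : Filter (I × List Bool)), d.2 = t0
  · obtain ⟨t0, ht0⟩ := h1
    by_cases h2 : ∃ i0, ∀ᶠ d in (W : Filter (I × List Bool)), d.1 = i0
    · obtain ⟨i0, hi0⟩ := h2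
      left
      refine ⟨(i0, t0), ?_⟩
      funext y
      apply hval
      filter_upwards [ht0, hi0] with d hd1 hd2
      have : d = (i0, t0) := Prod.ext hd2 hd1
      rw [this]
    · right
      refine ⟨some t0, ?_⟩
      have h2' : ∀ i0, ∀ᶠ d in (W : Filter (I × List Bool)), d.1 ≠ i0 := by
        intro i0
        have : ¬ ∀ᶠ d in (W : Filter (I × List Bool)), d.1 = i0 := fun h => h2 ⟨i0, h⟩
        exact Ultrafilter.eventually_not.2 this
      have hfin : ∀ S : Set I, S.Finite → ∀ᶠ d in (W : Filter (I × List Bool)), d.1 ∉ S := by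
        intro S hS
        have := (hS.eventually_all (l := (W : Filter (I × List Bool)))
          (p := fun i d => d.1 ≠ i)).2 (fun i _ => h2' i)
        filter_upwards [this] with d hd hmem
        exact hd d.1 hmem rfl
      set n := t0.length with hn
      set A : Set (I → unitInterval) := {y | ∀ᶠ d in (W : Filter (I × List Bool)), k y d.1 ≤ n}
        with hA
      have hAfin : A.Finite := by
        by_contra hinf
        obtain ⟨S, hSA, hScard⟩ := Set.Infinite.exists_subset_card_eq hinf (n + 2)
        have e1 : ∀ᶠ d in (W : Filter (I × List Bool)), ∀ y ∈ S, k y d.1 ≤ n :=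
          (Finset.eventually_all S).2 fun y hyS => hSA hyS
        have e2 : ∀ᶠ d in (W : Filter (I × List Bool)), ∀ y ∈ S, ∀ z ∈ S, y ≠ z →
            k y d.1 ≠ k z d.1 := by
          refine (Finset.eventually_all S).2 fun y _ => (Finset.eventually_all S).2 fun z _ => ?_
          by_cases hyz : y = z
          · exact Eventually.of_forall fun d h => absurd hyz h
          · filter_upwards [hfin _ (hk y z hyz)] with d hd _ heq
            exact hd heq
        obtain ⟨d, hd1, hd2⟩ := (e1.and e2).exists
        have hcard : S.card ≤ (Finset.range (n + 1)).card := by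
          apply Finset.card_le_card_of_injOn (fun y => k y d.1)
          · intro y hyS
            have := hd1 y hyS
            simp only [Finset.coe_range, Set.mem_Iio]
            omega
          · intro y hyS z hzS hyz
            by_contra hne'
            exact hd2 y hyS z hzS hne' hyz
        simp only [Finset.card_range] at hcard
        omega
      apply hAfin.subset
      intro y hyq
      by_contra hyA
      apply hyq
      have hyA' : ∀ᶠ d in (W : Filter (I × List Bool)), ¬ k y d.1 ≤ n :=
        Ultrafilter.eventually_not.2 hyA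
      apply hval
      filter_upwards [hyA', ht0] with d hd1 hd2
      have : d.2.length < k y d.1 := by rw [hd2]; omega
      rw [Ph_eq_bs k x this, hd2]
  · right
    refine ⟨none, ?_⟩
    have h1' : ∀ t0, ∀ᶠ d in (W : Filter (I × List Bool)), d.2 ≠ t0 := by
      intro t0
      have : ¬ ∀ᶠ d in (W : Filter (I × List Bool)), d.2 = t0 := fun h => h1 ⟨t0, h⟩
      exact Ultrafilter.eventually_not.2 this
    have hfin : ∀ S : Set (List Bool), S.Finite →
        ∀ᶠ d in (W : Filter (I × List Bool)), d.2 ∉ S := by
      intro S hS
      have := (hS.eventually_all (l := (W : Filter (I × List Bool)))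
        (p := fun t d => d.2 ≠ t)).2 (fun t _ => h1' t)
      filter_upwards [this] with d hd hmem
      exact hd d.2 hmem rfl
    apply Set.Subsingleton.finite
    intro y hyq z hzq
    by_contra hne'
    have key : ∀ w : I → unitInterval, q w ≠ bs x none w →
        ∀ᶠ d in (W : Filter (I × List Bool)), d.2 = pre (x w) d.2.length := by
      intro w hw
      have hw' : ¬ ∀ᶠ d in (W : Filter (I × List Bool)), Ph k x d w = 0 :=
        fun h => hw (hval w 0 h)
      have hw'' := Ultrafilter.eventually_not.2 hw'
      filter_upwards [hw''] with d hd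
      by_contra hcon
      apply hd
      unfold Ph chn
      rw [if_neg hcon]
    have hxne : x y ≠ x z := fun h => hne' (hx h)
    obtain ⟨m, hm⟩ := Function.ne_iff.1 hxne
    obtain ⟨d, hd1, hd2, hd3⟩ := ((key y hyq).and ((key z hzq).and
      (hfin _ ((Set.finite_Iic m).image (pre (x y)))))).exists
    apply hd3
    refine ⟨d.2.length, ?_, hd1.symm⟩
    simp only [Set.mem_Iic]
    by_contra hlt
    have hlt := not_le.1 hlt
    exact hm (pre_eq _ _ _ (hd1.symm.trans hd2) m hlt)

lemma mk_Kset_le (hk : ∀ y z, y ≠ z → {i | k y i = k z i}.Finite)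
    (hx : Function.Injective x) (hI : #I ≤ Cardinal.continuum)
    (hG : #(I → unitInterval) ≤ Cardinal.continuum) : #(Kset k x) ≤ Cardinal.continuum := by
  classical
  let T := (I × List Bool) ⊕ (Option (List Bool) × Finset ((I → unitInterval) × ℝ))
  let φ : T → ((I → unitInterval) → ℝ) := Sum.elim (Ph k x)
    (fun p y => if h : ∃ r, (y, r) ∈ p.2 then h.choose else bs x p.1 y)
  have hsub : Kset k x ⊆ range φ := by
    intro q hq
    rcases Kset_classify k x hk hx q hq with ⟨d, rfl⟩ | ⟨o, ho⟩
    · exact ⟨Sum.inl d, rfl⟩
    · refine ⟨Sum.inr (o, ho.toFinset.image (fun y => (y, q y))), ?_⟩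
      funext y
      show (if h : ∃ r, (y, r) ∈ ho.toFinset.image (fun y => (y, q y)) then h.choose
        else bs x o y) = q y
      split_ifs with h
      · have h2 := h.choose_spec
        rw [Finset.mem_image] at h2
        obtain ⟨a, _, ha2⟩ := h2
        have e1 := congrArg Prod.fst ha2
        have e2 := congrArg Prod.snd ha2
        simp only at e1 e2
        rw [← e2, e1]
      · by_contra hne'
        apply h
        refine ⟨q y, ?_⟩
        rw [Finset.mem_image]
        exact ⟨y, by simpa using fun h' => hne' h'.symm, rfl⟩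
  have hT : #T ≤ Cardinal.continuum := by
    have e : #T = #I * #(List Bool) +
        #(Option (List Bool)) * #(Finset ((I → unitInterval) × ℝ)) := by
      simp only [T, Cardinal.mk_sum, Cardinal.mk_prod, Cardinal.lift_id]
    rw [e]
    have hL : #(List Bool) ≤ Cardinal.continuum :=
      (Cardinal.mk_le_aleph0 (α := List Bool)).trans Cardinal.aleph0_le_continuum
    have hO : #(Option (List Bool)) ≤ Cardinal.continuum :=
      (Cardinal.mk_le_aleph0 (α := Option (List Bool))).trans Cardinal.aleph0_le_continuum
    have hGR : #((I → unitInterval) × ℝ) ≤ Cardinal.continuum := by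
      rw [Cardinal.mk_prod, Cardinal.lift_id, Cardinal.lift_id, Cardinal.mk_real]
      calc #(I → unitInterval) * Cardinal.continuum
          ≤ Cardinal.continuum * Cardinal.continuum := by gcongr
        _ = Cardinal.continuum := Cardinal.continuum_mul_self
    have hF : #(Finset ((I → unitInterval) × ℝ)) ≤ Cardinal.continuum := by
      haveI : Infinite ((I → unitInterval) × ℝ) := Prod.infinite_of_right
      rw [Cardinal.mk_finset_of_infinite]
      exact hGR
    calc #I * #(List Bool) + #(Option (List Bool)) * #(Finset ((I → unitInterval) × ℝ))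
        ≤ Cardinal.continuum * Cardinal.continuum + Cardinal.continuum * Cardinal.continuum := by
          gcongr
      _ = Cardinal.continuum := by
          rw [Cardinal.continuum_mul_self, Cardinal.continuum_add_self]
  calc #(Kset k x) ≤ #(range φ) := Cardinal.mk_le_mk_of_subset hsub
    _ ≤ #T := Cardinal.mk_range_le
    _ ≤ Cardinal.continuum := hT

/-! ### The map -/

lemma tendsto_Ph (i : I) : Tendsto (fun t : List Bool => Ph k x (i, t)) cofinite (𝓝 0) := by
  rw [tendsto_pi_nhds]
  intro y
  apply tendsto_const_nhds.congr'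
  have := (chn_finite (x y) (k y i) (y i : ℝ)).eventually_cofinite_notMem
  filter_upwards [this] with t ht
  simp only [Set.mem_ofPred_eq, not_not] at ht
  exact ht.symm

/-- the points of the compact space -/
noncomputable def pt (d : I × List Bool) : Kset k x :=
  ⟨Ph k x d, subset_closure (mem_range_self d)⟩

variable (i₀ : I)

lemma zero_mem (i₀ : I) : (0 : (I → unitInterval) → ℝ) ∈ Kset k x := by
  refine mem_closure_of_tendsto (tendsto_Ph k x i₀) (Eventually.of_forall fun t => ?_)
  exact mem_range_self _

/-- the zero point -/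
noncomputable def zp : Kset k x := ⟨0, zero_mem k x i₀⟩

lemma tendsto_pt (i : I) : Tendsto (fun t : List Bool => pt k x (i, t)) cofinite
    (𝓝 (zp k x i₀)) := by
  rw [tendsto_subtype_rng]
  exact tendsto_Ph k x i

/-- the column of a function -/
noncomputable def col (i : I) (g : Kset k x → ℝ) : List Bool → ℝ :=
  fun t => g (pt k x (i, t)) - g (zp k x i₀)

lemma continuous_col (i : I) : Continuous (col k x i₀ i) :=
  continuous_pi fun _ => (continuous_apply _).sub (continuous_apply _)

lemma col_small (i : I) (g : Kset k x → ℝ) (hg : Continuous g) :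
    ∃ N : ℕ, ∀ t : List Bool, N ≤ t.length → col k x i₀ i g t < 1 / 2 := by
  have h1 : Tendsto (fun t : List Bool => g (pt k x (i, t)) - g (zp k x i₀)) cofinite (𝓝 0) := by
    have := (hg.tendsto (zp k x i₀)).comp (tendsto_pt k x i₀ i)
    simpa using this.sub_const (g (zp k x i₀))
  have h2 : ∀ᶠ t in (cofinite : Filter (List Bool)),
      g (pt k x (i, t)) - g (zp k x i₀) < 1 / 2 := h1.eventually_lt_const (by norm_num)
  rw [Filter.eventually_cofinite] at h2
  obtain ⟨N, hN⟩ := (h2.image List.length).bddAbove
  refine ⟨N + 1, fun t ht => ?_⟩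
  by_contra hcon
  have : t.length ≤ N := hN ⟨t, hcon, rfl⟩
  omega

/-- the level at which the reading stops -/
noncomputable def lev (i : I) (g : {g : Kset k x → ℝ // Continuous g}) : ℕ :=
  (col_small k x i₀ i g.1 g.2).choose

lemma lev_spec (i : I) (g : {g : Kset k x → ℝ // Continuous g}) (t : List Bool)
    (ht : lev k x i₀ i g ≤ t.length) : col k x i₀ i g.1 t < 1 / 2 :=
  (col_small k x i₀ i g.1 g.2).choose_spec t ht

/-- the reading of a function at the index `i` -/
noncomputable def rdg (i : I) (g : {g : Kset k x → ℝ // Continuous g}) : ℝ :=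
  rd (lev k x i₀ i g) (col k x i₀ i g.1)

lemma rdg_eq (i : I) (g : {g : Kset k x → ℝ // Continuous g}) (N : ℕ)
    (hN : ∀ t : List Bool, t.length = N → col k x i₀ i g.1 t < 1 / 2) :
    rdg k x i₀ i g = rd N (col k x i₀ i g.1) := by
  unfold rdg
  have h1 := rd_stable N _ hN (max N (lev k x i₀ i g)) (le_max_left _ _)
  have h2 := rd_stable (lev k x i₀ i g) (col k x i₀ i g.1)
    (fun t ht => lev_spec k x i₀ i g t ht.ge) (max N (lev k x i₀ i g)) (le_max_right _ _)
  rw [← h1, h2]

lemma continuous_rdg (i : I) : Continuous (rdg k x i₀ i) := by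
  rw [continuous_iff_continuousAt]
  intro g
  have hcc : Continuous (fun g' : {g : Kset k x → ℝ // Continuous g} => col k x i₀ i g'.1) :=
    (continuous_col k x i₀ i).comp continuous_subtype_val
  set N := lev k x i₀ i g
  have hfin : {t : List Bool | t.length = N}.Finite := List.finite_length_eq Bool N
  have hev : ∀ᶠ g' in 𝓝 g, ∀ t ∈ {t : List Bool | t.length = N},
      col k x i₀ i g'.1 t < 1 / 2 := by
    rw [hfin.eventually_all]
    intro t ht
    have hc : Continuous (fun g' : {g : Kset k x → ℝ // Continuous g} => col k x i₀ i g'.1 t) :=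
      (continuous_apply t).comp hcc
    exact hc.continuousAt.eventually_lt_const (lev_spec k x i₀ i g t (le_of_eq ht.symm))
  have hcont : ContinuousAt (fun g' : {g : Kset k x → ℝ // Continuous g} =>
      rd N (col k x i₀ i g'.1)) g := ((continuous_rd N).comp hcc).continuousAt
  apply hcont.congr
  filter_upwards [hev] with g' hg'
  exact (rdg_eq k x i₀ i g' N (fun t ht => hg' t ht)).symm

/-- the continuous map onto the cube -/
noncomputable def cube (g : {g : Kset k x → ℝ // Continuous g}) : I → unitInterval :=
  fun i => Set.projIcc 0 1 zero_le_one (rdg k x i₀ i g)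

lemma continuous_cube : Continuous (cube k x i₀) :=
  continuous_pi fun i => continuous_projIcc.comp (continuous_rdg k x i₀ i)

lemma surjective_cube : Function.Surjective (cube k x i₀) := by
  intro y
  refine ⟨⟨fun p => p.1 y, (continuous_apply y).comp continuous_subtype_val⟩, ?_⟩
  funext i
  unfold cube
  have hcol : col k x i₀ i (fun p => p.1 y) = chn (x y) (k y i) (y i : ℝ) := by
    funext t
    simp [col, pt, zp, Ph]
  have h : rdg k x i₀ i ⟨fun p => p.1 y, (continuous_apply y).comp continuous_subtype_val⟩
      = y i := by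
    rw [rdg_eq k x i₀ i _ (k y i + 1)]
    · show rd (k y i + 1) (col k x i₀ i (fun p => p.1 y)) = y i
      rw [hcol]
      exact rd_chn _ _ _ (y i).2.1 (y i).2.2 _ (by omega)
    · intro t ht
      show col k x i₀ i (fun p => p.1 y) t < 1 / 2
      rw [hcol]
      unfold chn
      rw [ht]
      split_ifs
      · omega
      · omega
      · norm_num
      · norm_num
  rw [h]
  exact Set.projIcc_val zero_le_one (y i)

end space

/-- an uncountable power of the interval is not first countable -/
lemma cube_not_metrizable (I : Type) [Uncountable I] :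
    ¬ TopologicalSpace.MetrizableSpace (I → unitInterval) := by
  classical
  intro hm
  obtain ⟨U, hU⟩ := (𝓝 (0 : I → unitInterval)).exists_antitone_basis
  have h1 : ∀ n, ∃ J : Finset I, ∀ z : I → unitInterval, (∀ j ∈ J, z j = 0) → z ∈ U n := by
    intro n
    have hmem : U n ∈ 𝓝 (0 : I → unitInterval) := hU.1.mem_of_mem trivial
    obtain ⟨V, hVU, hVo, hV0⟩ := mem_nhds_iff.1 hmem
    obtain ⟨J, u, hu, hsub⟩ := isOpen_pi_iff.1 hVo 0 hV0
    refine ⟨J, fun z hz => hVU (hsub ?_)⟩
    intro j hj
    rw [hz j hj]
    exact (hu j hj).2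
  choose J hJ using h1
  obtain ⟨i, hi⟩ : ∃ i, i ∉ ⋃ n, (J n : Set I) := by
    by_contra hcon
    simp only [not_exists, not_not] at hcon
    have hc : (⋃ n, (J n : Set I)).Countable :=
      Set.countable_iUnion fun n => (J n).countable_toSet
    have : (Set.univ : Set I).Countable := hc.mono fun i _ => hcon i
    exact Set.not_countable_univ this
  have hW : {z : I → unitInterval | z i ≠ 1} ∈ 𝓝 (0 : I → unitInterval) := by
    apply IsOpen.mem_nhds
    · exact (isClosed_singleton.preimage (continuous_apply i)).isOpen_compl
    · simp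
  obtain ⟨n, -, hn⟩ := hU.1.mem_iff.1 hW
  have hz := hJ n (Function.update 0 i 1) (fun j hj => by
    have : j ≠ i := by
      rintro rfl
      exact hi (Set.mem_iUnion.2 ⟨n, hj⟩)
    simp [Function.update_of_ne this])
  exact (hn hz) (by simp)

/-- If there are an uncountable set `I` and `2 ^ |I|` many functions `I → ℕ`, any two of which
agree at only finitely many points, then some compact Hausdorff space `K` of cardinality at most
the continuum has a continuous map of `C_p(K)` onto a non-metrizable compact Hausdorff space. -/
theorem imp_main : StronglyAlmostDisjointFamily →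
    ∃ (K : Type) (_ : TopologicalSpace K) (_ : CompactSpace K) (_ : T2Space K),
      Cardinal.mk K ≤ Cardinal.continuum ∧
      ∃ (Y : Type) (_ : TopologicalSpace Y) (_ : CompactSpace Y) (_ : T2Space Y)
        (f : {g : K → ℝ // Continuous g} → Y),
        Continuous f ∧ Function.Surjective f ∧ ¬ TopologicalSpace.MetrizableSpace Y := by
  rintro ⟨I, k', hunc, hk'⟩
  have := hunc
  have : Infinite I := inferInstance
  have hS : #(Set I) ≤ Cardinal.continuum := by
    let j := Infinite.natEmbedding I
    have hinj : Function.Injective (fun (A : Set I) (n : ℕ) => k' A (j n)) := by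
      intro A B hAB
      by_contra hne
      have hfin := hk' A B hne
      apply Set.infinite_range_of_injective j.injective
      apply hfin.subset
      rintro _ ⟨n, rfl⟩
      exact congrFun hAB n
    calc #(Set I) ≤ #(ℕ → ℕ) := Cardinal.mk_le_of_injective hinj
      _ = Cardinal.continuum := by simp
  have hG0 : #(I → unitInterval) = #(Set I) := by
    have h1 : #(I → unitInterval) = Cardinal.mk unitInterval ^ #I := by
      rw [Cardinal.mk_pi]; simp
    have h2 : Cardinal.mk unitInterval = Cardinal.continuum := Cardinal.mk_Icc_real zero_lt_one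
    rw [h1, h2, ← Cardinal.two_power_aleph0, ← Cardinal.power_mul]
    have h3 : ℵ₀ * #I = #I := Cardinal.aleph0_mul_eq (Cardinal.aleph0_le_mk I)
    rw [h3, ← Cardinal.mk_set]
  have hG : #(I → unitInterval) ≤ Cardinal.continuum := hG0.le.trans hS
  have hIc : #I ≤ Cardinal.continuum := by
    refine le_trans ?_ hS
    rw [Cardinal.mk_set]
    exact (Cardinal.cantor _).le
  obtain ⟨e⟩ : Nonempty ((I → unitInterval) ≃ Set I) := Cardinal.eq.1 hG0
  have hNB : #(ℕ → Bool) = Cardinal.continuum := by simp
  obtain ⟨x⟩ : Nonempty ((I → unitInterval) ↪ (ℕ → Bool)) := by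
    have : #(I → unitInterval) ≤ #(ℕ → Bool) := hG.trans hNB.ge
    exact this
  let k : (I → unitInterval) → I → ℕ := fun y => k' (e y)
  have hk : ∀ y z, y ≠ z → {i | k y i = k z i}.Finite := fun y z hyz =>
    hk' _ _ (fun h => hyz (e.injective h))
  obtain ⟨i₀⟩ : Nonempty I := inferInstance
  exact ⟨Kset k x, inferInstance, isCompact_iff_compactSpace.1 (Kset_compact k x),
    inferInstance, mk_Kset_le k x hk x.injective hIc hG, I → unitInterval, inferInstance,
    inferInstance, inferInstance, cube k x i₀, continuous_cube k x i₀, surjective_cube k x i₀,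
    cube_not_metrizable I⟩

end Pool.Agent.LibSAD21.Imp
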