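import Pool.Agent.LibSAD21.Enum

/-!
The first uncountable ordinal and the cardinals used.
-/

set_option autoImplicit false

namespace Pool.Agent.LibSAD21

open Cardinal Pool.Agent.LibTk83

/-- The first uncountable ordinal. -/
abbrev W1 : Type := (aleph 1).ord.ToType

/-- The index set of the family. -/
abbrev K1 : Type := Set (W1 → ℕ)

theorem mk_W1 : #W1 = aleph 1 := by rw [Cardinal.mk_toType, Cardinal.card_ord]

instance : Uncountable W1 := by
  rw [← Cardinal.aleph0_lt_mk_iff, mk_W1]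
  exact Cardinal.aleph0_lt_aleph_one

theorem W1_Iio (a : W1) : (Set.Iio a).Countable := by
  rw [← Cardinal.le_aleph0_iff_set_countable]
  have h : #(Set.Iio a) < aleph 1 := by
    have h6 := mk_Iio_lt a (by rw [mk_ord_toType, Ordinal.type_toType])
    rwa [mk_ord_toType] at h6
  exact Order.lt_succ_iff.mp (h.trans_eq Cardinal.succ_aleph0.symm)

theorem W1_bound (s : Set W1) (hs : s.Countable) : ∃ w, ∀ v ∈ s, v < w := by
  by_contra hcon
  have hcof : IsCofinal s := by
    intro x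
    by_contra hx
    apply hcon
    refine ⟨x, fun v hv => ?_⟩
    by_contra hvx
    exact hx ⟨v, hv, not_lt.1 hvx⟩
  have h1 := Order.cof_le hcof
  rw [Ordinal.cof_toType, isRegular_aleph_one.cof_ord] at h1
  have h2 : #s < aleph 1 :=
    lt_of_le_of_lt (Cardinal.le_aleph0_iff_set_countable.2 hs) Cardinal.aleph0_lt_aleph_one
  exact absurd h2 (not_lt.2 h1)

theorem W1_bdd (s : Set W1) (hs : s.Countable) : BddAbove s := by
  obtain ⟨w, hw⟩ := W1_bound s hs
  exact ⟨w, fun v hv => (hw v hv).le⟩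

instance : NoMaxOrder W1 := ⟨fun a => by
  obtain ⟨w, hw⟩ := W1_bound {a} (Set.countable_singleton a)
  exact ⟨w, hw a rfl⟩⟩

/-- An enumeration of all names of subsets of `ω₁` by the index set. -/
theorem exists_enum1 : ∃ e : K1 → (W1 → RO (Cond W1 K1)), Function.Surjective e := by
  have h0 : ℵ₀ ≤ #W1 := (Cardinal.aleph0_lt_aleph_one.le).trans mk_W1.ge
  have h1 : #(W1 → ℕ) = 2 ^ #W1 := by
    rw [mk_arrow, lift_id, lift_id, mk_nat]
    apply le_antisymm
    · calc ℵ₀ ^ #W1 ≤ (2 ^ ℵ₀) ^ #W1 := power_le_power_right (cantor _).le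
        _ = 2 ^ (ℵ₀ * #W1) := power_mul.symm
        _ = 2 ^ #W1 := by rw [aleph0_mul_eq h0]
    · exact power_le_power_right ((natCast_lt_aleph0 (n := 2)).le)
  have h2 : #W1 ≤ #(W1 → ℕ) := by
    rw [h1]
    exact (cantor _).le
  have h3 : ℵ₀ ≤ #(W1 → ℕ) := h0.trans h2
  have h4 : #K1 = 2 ^ #(W1 → ℕ) := by rw [mk_set]
  refine exists_enum (μ := #(W1 → ℕ)) W1_Iio W1_bdd h3 ?_ h2 le_rfl ?_ ?_
  · rw [h1, ← power_mul, mul_aleph0_eq h0]
  · rw [h4, ← power_mul, mul_eq_self h3]
  · rw [h4]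
    exact (cantor _).le

end Pool.Agent.LibSAD21
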