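import Pool.Agent.LibSAD21.Interp
import Pool.Agent.LibSAD21.Gen
import Pool.Agent.LibSAD21.Omega1

/-!
The sentence is true in a Boolean-valued universe.
-/

set_option autoImplicit false

namespace Pool.Agent.LibSAD21

open Pool.Agent.LibPlas90 Pool.Agent.LibPlas90.BSet Pool.Agent.LibTk83

instance {W K : Type} [LinearOrder W] [Nonempty W] : Nonempty (Cond W K) :=
  ⟨{ al := Classical.arbitrary W, S := ∅, g := 0, E := ∅, D := ∅, h := 0,
     cS := Set.countable_empty, g0 := fun _ _ => rfl, h0 := fun _ _ => rfl,
     ES := fun _ hi => by simp at hi, DA := fun _ hγ => by simp at hγ }⟩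

/-- There is a nontrivial complete Boolean algebra `B` such that in `V^B` there are an uncountable
set `I` and functions from `I` to `ω`, at least one for each subset of `I`, such that functions
belonging to different subsets agree at only finitely many points. -/
theorem main : ∃ (B : Type) (_ : CompleteBooleanAlgebra B) (_ : Nontrivial B),
    sadSentence B = ⊤ := by
  obtain ⟨e, he⟩ := exists_enum1
  refine ⟨RO (Cond W1 K1), inferInstance, ?_, ?_⟩
  · have : Nonempty W1 := inferInstance
    have : Nonempty (Cond W1 K1) := inferInstance
    infer_instance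
  · unfold sadSentence
    refine top_le_iff.mp (le_iSup_of_le (ck _ ℕ) (le_iSup_of_le (ck _ W1)
      (le_iSup_of_le (famN e kn) ?_)))
    rw [isOmega_ck, embeds_ck_eq_bot (Cond.no_surj W1_Iio W1_bdd),
      isFamily_famN e he kn kn_total (fun i γ n m h => kn_func i γ h) (fun i j h => kn_fin h)]
    simp

end Pool.Agent.LibSAD21
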