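import Pool.Agent.LibSAD21.Amal
import Pool.Agent.LibTk83.RO

/-!
The forcing adds no map of `ℕ` onto `ω₁`.
-/

set_option autoImplicit false

namespace Pool.Agent.LibSAD21

/-- Recursive construction along a well-order. -/
theorem exists_rec {W T : Type} [LinearOrder W] [WellFoundedLT W] [Nonempty T]
    (R : ∀ ξ : W, ((η : W) → η < ξ → T) → T → Prop)
    (hR : ∀ (ξ : W) (f : (η : W) → η < ξ → T),
      (∀ η (h : η < ξ), R η (fun ζ hζ => f ζ (hζ.trans h)) (f η h)) → ∃ x, R ξ f x) :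
    ∃ f : W → T, ∀ ξ, R ξ (fun η _ => f η) (f ξ) := by
  classical
  let F : W → T := (wellFounded_lt (α := W)).fix
    (fun ξ f => if h : ∃ x, R ξ f x then h.choose else Classical.arbitrary T)
  have hF : ∀ ξ, F ξ = if h : ∃ x, R ξ (fun η _ => F η) x then h.choose
      else Classical.arbitrary T := by
    intro ξ
    exact (wellFounded_lt (α := W)).fix_eq _ ξ
  refine ⟨F, fun ξ => ?_⟩
  induction ξ using WellFoundedLT.induction with
  | ind ξ ih =>
    have h : ∃ x, R ξ (fun η _ => F η) x := hR ξ _ fun η hη => ih η hη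
    rw [hF ξ, dif_pos h]
    exact h.choose_spec

namespace Cond

variable {W K : Type} [LinearOrder W]

/-- Lower bounds for countable decreasing families of conditions with the same finite part. -/
theorem exists_lower [WellFoundedLT W] (hWb : ∀ s : Set W, s.Countable → BddAbove s)
    {J : Type} [Countable J] [LinearOrder J] (p : Cond W K) (q : J → Cond W K)
    (hp : ∀ j, PureLe (q j) p) (hq : ∀ i j, i < j → PureLe (q j) (q i)) :
    ∃ q', PureLe q' p ∧ ∀ j, PureLe q' (q j) := by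
  classical
  rcases isEmpty_or_nonempty J with hJ | hJ
  · exact ⟨p, PureLe.refl p, fun j => (hJ.false j).elim⟩
  obtain ⟨b, hb⟩ := hWb (Set.range fun j => (q j).al) (Set.countable_range _)
  obtain ⟨β, hβ, hmin⟩ := (wellFounded_lt (α := W)).has_min
    (upperBounds (Set.range fun j => (q j).al)) ⟨b, hb⟩
  have hβ1 : ∀ j, (q j).al ≤ β := fun j => hβ ⟨j, rfl⟩
  have hβ2 : ∀ γ < β, ∃ j, γ < (q j).al := by
    intro γ hγ
    by_contra hcon
    push Not at hcon
    apply hmin γ _ hγ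
    rintro _ ⟨j, rfl⟩
    exact hcon j
  have hle : ∀ i j, i ≤ j → q j ≤ q i := by
    intro i j hij
    rcases hij.lt_or_eq with h | rfl
    · exact (hq i j h).le
    · exact le_rfl
  set g : K → W → ℕ := fun i γ => if h : ∃ j, i ∈ (q j).S ∧ γ < (q j).al then (q h.choose).g i γ
    else 0 with hg
  have hgq : ∀ j i γ, i ∈ (q j).S → γ < (q j).al → g i γ = (q j).g i γ := by
    intro j i γ hi hγ
    have h : ∃ j, i ∈ (q j).S ∧ γ < (q j).al := ⟨j, hi, hγ⟩
    have h1 : g i γ = (q h.choose).g i γ := by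
      rw [hg]
      simp only [dif_pos h]
    rw [h1]
    have h2 := h.choose_spec
    rcases le_total j h.choose with h3 | h3
    · exact (hle _ _ h3).g i hi γ hγ
    · exact ((hle _ _ h3).g i h2.1 γ h2.2).symm
  obtain ⟨j0⟩ := hJ
  have key : ∀ j, Le
      { al := β
        S := ⋃ j, (q j).S
        g := g
        E := p.E
        D := p.D
        h := p.h
        cS := Set.countable_iUnion fun j => (q j).cS
        g0 := fun i hi => by
          funext γ
          rw [hg]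
          simp only
          rw [dif_neg]
          · rfl
          · rintro ⟨j, hj, -⟩
            exact hi (Set.mem_iUnion.2 ⟨j, hj⟩)
        h0 := fun i hi => p.h0 i fun h => hi (Set.mem_iUnion.2 ⟨j0, (hp j0).le.S h⟩)
        ES := fun i hi => Set.mem_iUnion.2 ⟨j0, (hp j0).le.S (p.ES i hi)⟩
        DA := fun γ hγ => ((p.DA γ hγ).trans_le (hp j0).le.al).trans_le (hβ1 j0) } (q j) := by
    intro j
    constructor
    · exact hβ1 j
    · exact Set.subset_iUnion (fun j => (q j).S) j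
    · intro i hi γ hγ
      exact hgq j i γ hi hγ
    · intro i hi i' hi' hne γ h1 h2
      obtain ⟨k, hk⟩ := hβ2 γ h2
      have hjk : j ≤ k := by
        by_contra h
        exact absurd ((hle _ _ (not_le.1 h).le).al) (not_le.2 (h1.trans_lt hk))
      simp only
      rw [hgq k i γ ((hle _ _ hjk).S hi) hk, hgq k i' γ ((hle _ _ hjk).S hi') hk]
      exact (hle _ _ hjk).inj i hi i' hi' hne γ h1 hk
    · rw [(hp j).E]
    · rw [(hp j).D]
    · intro i _ γ _
      rw [(hp j).h]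
    · intro i _ i' _ _ γ h1 h2
      rw [(hp j).D] at h2
      exact absurd h1 h2
  refine ⟨_, ⟨le_trans (key j0) (hp j0).le, rfl, rfl, rfl⟩, fun j => ⟨key j, ?_, ?_, ?_⟩⟩
  · exact (hp j).E.symm
  · exact (hp j).D.symm
  · exact (hp j).h.symm

open Pool.Agent.LibTk83

theorem exists_small [WellFoundedLT W] [Uncountable W] (hW : ∀ a : W, (Set.Iio a).Countable)
    (hWb : ∀ s : Set W, s.Countable → BddAbove s)
    (X : W → RO (Cond W K)) (hX : ∀ ξ η, ξ ≠ η → X ξ ⊓ X η = ⊥) (p : Cond W K) :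
    ∃ q, PureLe q p ∧ ∃ C : Set W, C.Countable ∧ ∀ r, r ≤ q → ∀ γ, r ∈ X γ → γ ∈ C := by
  classical
  by_contra hcon
  push Not at hcon
  have hne : Nonempty W := inferInstance
  have hneT : Nonempty (Cond W K × W) := ⟨(p, hne.some)⟩
  obtain ⟨f, hf⟩ := exists_rec (T := Cond W K × W)
    (fun ξ f x => x.1 ≤ p ∧ x.1 ∈ X x.2 ∧ (∀ η (h : η < ξ), (f η h).2 ≠ x.2) ∧
      ∀ η (h : η < ξ), CLe x.1 (f η h).1) (by
    intro ξ f hf
    have hcount : Countable (Set.Iio ξ) := (hW ξ).to_subtype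
    obtain ⟨q', hq'p, hq'⟩ := exists_lower hWb (J := Set.Iio ξ) p
      (fun η => pure (f η.1 η.2).1 p (hf η.1 η.2).1) (fun η => pure_pureLe _ _ _) (by
        intro η ζ hηζ
        have h1 : CLe (f ζ.1 ζ.2).1 (f η.1 η.2).1 := (hf ζ.1 ζ.2).2.2.2 η.1 hηζ
        refine ⟨?_, rfl, rfl, rfl⟩
        constructor
        · exact h1.al
        · exact h1.S
        · exact h1.g
        · exact h1.inj
        · exact subset_rfl
        · exact subset_rfl
        · exact fun _ _ _ _ => rfl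
        · exact fun _ _ _ _ _ γ h1 h2 => absurd h1 h2)
    obtain ⟨r, hr, γ, hrγ, hγ⟩ := hcon q' hq'p (Set.range fun η : Set.Iio ξ => (f η.1 η.2).2)
      (Set.countable_range _)
    refine ⟨(r, γ), hr.trans hq'p.le, hrγ, ?_, ?_⟩
    · intro η hη h1
      exact hγ ⟨⟨η, hη⟩, h1⟩
    · intro η hη
      have h1 : Le r (pure (f η hη).1 p (hf η hη).1) := le_trans hr (hq' ⟨η, hη⟩).le
      exact ⟨h1.al, h1.S, h1.g, h1.inj⟩)
  obtain ⟨ξ, η, hξη, c, hc1, hc2⟩ := exists_compat hW (fun ξ => (f ξ).1)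
    (fun ξ η h => (hf η).2.2.2 ξ h)
  have h1 : c ∈ X (f ξ).2 ⊓ X (f η).2 :=
    RO.mem_inf.2 ⟨RO.mem_of_le hc1 (hf ξ).2.1, RO.mem_of_le hc2 (hf η).2.1⟩
  rw [hX _ _ ((hf η).2.2.1 ξ hξη)] at h1
  exact RO.not_mem_bot h1

/-- The forcing adds no map of `ℕ` onto `W`. -/
theorem no_surj [WellFoundedLT W] [Uncountable W] (hW : ∀ a : W, (Set.Iio a).Countable)
    (hWb : ∀ s : Set W, s.Countable → BddAbove s) (x : ℕ → W → RO (Cond W K))
    (hx : ∀ k ξ η, ξ ≠ η → x k ξ ⊓ x k η = ⊥) : ⨅ ξ, ⨆ k, x k ξ = ⊥ := by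
  by_contra hcon
  obtain ⟨p, hp⟩ := RO.ne_bot_iff.1 hcon
  choose nx hnx1 C hC hnx2 using fun k => exists_small hW hWb (x k) (hx k)
  let q : ℕ → Cond W K := fun n => Nat.rec p (fun k q => nx k q) n
  have hq1 : ∀ n, PureLe (q (n + 1)) (q n) := fun n => hnx1 n (q n)
  have hq2 : ∀ m n, m ≤ n → PureLe (q n) (q m) := by
    intro m n hmn
    induction n, hmn using Nat.le_induction with
    | base => exact PureLe.refl _
    | succ n _ ih => exact (hq1 n).trans ih
  obtain ⟨q', hq'p, hq'⟩ := exists_lower hWb p q (fun n => hq2 0 n (Nat.zero_le n))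
    (fun m n h => hq2 m n h.le)
  obtain ⟨γ, hγ⟩ : ∃ γ, γ ∉ ⋃ n, C n (q n) := by
    by_contra hcon
    push Not at hcon
    have h1 : (Set.univ : Set W).Countable :=
      (Set.countable_iUnion fun n => hC n (q n)).mono fun γ _ => hcon γ
    exact not_countable (Set.countable_univ_iff.1 h1)
  have h1 : q' ∈ ⨆ k, x k γ := RO.mem_iInf.1 (RO.mem_of_le hq'p.le hp) γ
  obtain ⟨r, hr, k, hk⟩ := RO.mem_iSup.1 h1 q' le_rfl
  apply hγ
  exact Set.mem_iUnion.2 ⟨k, hnx2 k (q k) r (hr.trans (hq' (k + 1)).le) γ hk⟩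

end Cond

end Pool.Agent.LibSAD21
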