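import Pool.Agent.LibTk83.Sent

/-!
The truth value, in the Boolean-valued universe `V^B`, of the sentence: there are an uncountable
set `I` and functions from `I` to `ω`, at least one for each subset `A` of `I`, such that functions
belonging to different subsets of `I` agree at only finitely many points of `I`.

All quantifiers range over the whole universe `V^B`; the only primitive predicates are membership
and equality.
-/

universe u

namespace Pool.Agent.LibSAD21

open Pool.Agent.LibPlas90 Pool.Agent.LibPlas90.BSet Pool.Agent.LibTk83

variable {B : Type u} [CompleteBooleanAlgebra B]

/-- `F` relates `A` to `k`, and `k` is a function from `I` to `w`. -/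
noncomputable def isVal (F A k I w : BSet B) : B := rel F A k ⊓ isMap k I w

/-- `E` is the set of those elements `x` of `I` at which the functions `k` and `l`, from `I`
to `w`, have the same value. -/
noncomputable def isAgree (E k l I w : BSet B) : B :=
  sub E I ⊓ all I fun x => equiv (mem x E) (ex w fun n => rel k x n ⊓ rel l x n)

/-- `F` relates each subset `A` of `I` to some function from `I` to `w`, and if `A`, `A'` are
different subsets of `I`, related by `F` to the functions `k` and `l` from `I` to `w`, then `k` and
`l` agree at only finitely many points of `I`. -/
noncomputable def isFamily (F I w : BSet B) : B :=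
  (⨅ A : BSet B, sub A I ⇨ ⨆ k : BSet B, isVal F A k I w) ⊓
  (⨅ A : BSet B, ⨅ A' : BSet B, ⨅ k : BSet B, ⨅ l : BSet B, ⨅ E : BSet B,
    sub A I ⊓ sub A' I ⊓ (eq A A')ᶜ ⊓ isVal F A k I w ⊓ isVal F A' l I w ⊓ isAgree E k l I w ⇨
      isFin E)

variable (B) in
/-- The truth value in `V^B` of the sentence: there are an uncountable set `I` and functions from
`I` to `ω`, at least one for each subset `A` of `I`, such that functions belonging to different
subsets of `I` agree at only finitely many points of `I`. -/
noncomputable def sadSentence : B :=
  ⨆ w : BSet B, ⨆ I : BSet B, ⨆ F : BSet B, isOmega w ⊓ (embeds I w)ᶜ ⊓ isFamily F I w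

end Pool.Agent.LibSAD21
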